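import Pool.Agent.Lib.UDet.Main
import Pool.Agent.Lib.MGen.NameG

/-!
# Borel functions on the Turing degrees: constant, above the identity, or with generic values that
are eventually incomparable with all values
-/

set_option autoImplicit false

namespace Pool.Agent.UDet

open Topology Filter Set TopologicalSpace Pool.Agent.GammaZero Pool.Agent.Mart Pool.Agent.MGen
open Encodable

variable {φ : (ℕ → Bool) → (ℕ → Bool)}

/-- `φ` is constant on a cone, up to Turing equivalence -/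
def ConstCone (φ : (ℕ → Bool) → (ℕ → Bool)) : Prop := ∃ C D, ∀ A, TR C A → Eqv (φ A) D

/-- `φ` is above the identity on a cone -/
def AboveId (φ : (ℕ → Bool) → (ℕ → Bool)) : Prop := ∃ C, ∀ A, TR C A → TR A (φ A)

/-- `φ X` is above `a` for all `X` in a cone -/
def Ev (φ : (ℕ → Bool) → (ℕ → Bool)) (a : ℕ → Bool) : Prop := ∃ B, ∀ X, TR B X → TR a (φ X)

/-- `φ X` is incomparable with `a` for all `X` in a cone -/
def Inc (φ : (ℕ → Bool) → (ℕ → Bool)) (a : ℕ → Bool) : Prop :=
  ∃ B, ∀ X, TR B X → ¬ TR a (φ X) ∧ ¬ TR (φ X) a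

theorem countable_below (a : ℕ → Bool) : {x : ℕ → Bool | TR x a}.Countable := by
  have h1 : {x : ℕ → Bool | TR x a} = ⋃ e : ℕ, {x | Idx a e x} := by
    ext x
    simp only [mem_ofPred_eq, mem_iUnion, tr_iff_idx]
  rw [h1]
  refine countable_iUnion fun e => Set.Subsingleton.countable ?_
  intro x hx y hy
  funext k
  obtain ⟨t, ht⟩ := hx k
  obtain ⟨t', ht'⟩ := hy k
  exact toNat_inj (ht.unique ht')

theorem exists_not_below (a : ℕ → Bool) : ∃ x : ℕ → Bool, ¬ TR x a := by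
  by_contra hcon
  push Not at hcon
  have h1 : (Set.univ : Set (ℕ → Bool)).Countable := (countable_below a).mono fun x _ => hcon x
  refine not_countable_of_residual (C := (Set.univ : Set (ℕ → Bool))) (σ := []) ?_ h1
  exact Eventually.of_forall fun y _ => trivial

theorem inv_eqv (hinv : ∀ A B, Eqv A B → TR (φ A) (φ B)) {A B : ℕ → Bool} (h : Eqv A B) :
    Eqv (φ A) (φ B) := ⟨hinv _ _ h, hinv _ _ h.symm⟩

/-- cone dichotomy for `{X | φ X ≡ x}` -/
theorem cone_eqv (hφ : Measurable φ) (hinv : ∀ A B, Eqv A B → TR (φ A) (φ B)) (x : ℕ → Bool) :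
    (∃ B, ∀ X, TR B X → Eqv (φ X) x) ∨ (∃ B, ∀ X, TR B X → ¬ Eqv (φ X) x) := by
  have hS : MeasurableSet {X | Eqv (φ X) x} :=
    (measurable_TR_comp hφ measurable_const).inter (measurable_TR_comp measurable_const hφ)
  exact cone_dichotomy hS fun A B hAB hBA hA => (inv_eqv hinv ⟨hBA, hAB⟩).trans hA

theorem cone_above (hφ : Measurable φ) (hinv : ∀ A B, Eqv A B → TR (φ A) (φ B)) (x : ℕ → Bool) :
    Ev φ x ∨ (∃ B, ∀ X, TR B X → ¬ TR x (φ X)) := by
  have hS : MeasurableSet {X | TR x (φ X)} := measurable_TR_comp measurable_const hφ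
  exact cone_dichotomy hS fun A B hAB hBA hA => TR.trans hA (hinv A B ⟨hAB, hBA⟩)

theorem cone_below (hφ : Measurable φ) (hinv : ∀ A B, Eqv A B → TR (φ A) (φ B)) (x : ℕ → Bool) :
    (∃ B, ∀ X, TR B X → TR (φ X) x) ∨ (∃ B, ∀ X, TR B X → ¬ TR (φ X) x) := by
  have hS : MeasurableSet {X | TR (φ X) x} := measurable_TR_comp hφ measurable_const
  exact cone_dichotomy hS fun A B hAB hBA hA => TR.trans (hinv B A ⟨hBA, hAB⟩) hA

/-- a function which is bounded on a cone is constant on a cone -/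
theorem const_of_bounded (hφ : Measurable φ) (hinv : ∀ A B, Eqv A B → TR (φ A) (φ B))
    {a : ℕ → Bool} (h : ∃ B, ∀ X, TR B X → TR (φ X) a) : ConstCone φ := by
  obtain ⟨B, hB⟩ := h
  by_contra hcon
  have h1 : ∀ x : ℕ → Bool, ∃ B, ∀ X, TR B X → ¬ Eqv (φ X) x := by
    intro x
    rcases cone_eqv hφ hinv x with ⟨B, hB⟩ | h
    · exact absurd ⟨B, x, hB⟩ hcon
    · exact h
  choose Bx hBx using h1
  obtain ⟨f, hf⟩ := (countable_below a).exists_eq_range ⟨a, TR.refl a⟩
  let X : ℕ → Bool := bjoin B (cjoin fun n => Bx (f n))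
  have hX : φ X ∈ {x : ℕ → Bool | TR x a} := hB _ (tr_bjoin_left _ _)
  rw [hf] at hX
  obtain ⟨n, hn⟩ := hX
  refine hBx (f n) X ((tr_cjoin (fun n => Bx (f n)) n).trans (tr_bjoin_right _ _)) ?_
  rw [hn]
  exact Eqv.refl _

/-- values which are not eventually below are eventually incomparable -/
theorem inc_of_not_ev (hφ : Measurable φ) (hinv : ∀ A B, Eqv A B → TR (φ A) (φ B))
    (hc : ¬ ConstCone φ) {a : ℕ → Bool} (ha : ¬ Ev φ a) : Inc φ a := by
  rcases cone_below hφ hinv a with h | ⟨B, hB⟩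
  · exact absurd (const_of_bounded hφ hinv h) hc
  rcases cone_above hφ hinv a with h | ⟨B', hB'⟩
  · exact absurd h ha
  · exact ⟨bjoin B B', fun X hX => ⟨hB' X ((tr_bjoin_right _ _).trans hX),
      hB X ((tr_bjoin_left _ _).trans hX)⟩⟩

/-! ### generic values -/

/-- no value is taken on a nonmeager set -/
def Spread (ψ : (ℕ → Bool) → (ℕ → Bool)) : Prop := ∀ x, ∀ᶠ y in residual (ℕ → Bool), ψ y ≠ x

theorem Spread.patch {ψ : (ℕ → Bool) → (ℕ → Bool)} (h : Spread ψ) (s : List Bool) :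
    Spread fun y => ψ (patch s y) := fun x =>
  (tendsto_residual_of_isOpenMap (continuous_patch s) (isOpenMap_patch s)).eventually (h x)

theorem not_countable_of_spread {ψ : (ℕ → Bool) → (ℕ → Bool)} (h : Spread ψ) {D : Set (ℕ → Bool)}
    (hD : ∀ᶠ y in residual (ℕ → Bool), y ∈ D) : ¬ (ψ '' D).Countable := by
  intro hc
  have h1 : ∀ᶠ y in residual (ℕ → Bool), ∀ x ∈ ψ '' D, ψ y ≠ x :=
    (eventually_countable_ball hc).2 fun x _ => h x
  obtain ⟨y, -, hy1, hy2⟩ := exists_of_residual (h1.and hD) []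
  exact hy1 (ψ y) ⟨y, hy2, rfl⟩ rfl

/-- density argument -/
theorem residual_of_local {Q : (ℕ → Bool) → Prop}
    (h : ∀ s : List Bool, ∃ t, s <+: t ∧ ∀ᶠ g in residual (ℕ → Bool), Ext t g → Q g) :
    ∀ᶠ g in residual (ℕ → Bool), Q g := by
  choose t ht hQ using h
  have h1 : ∀ᶠ g in residual (ℕ → Bool), ∃ s, Ext (t s) g := by
    have h2 : IsOpen {g : ℕ → Bool | ∃ s, Ext (t s) g} := by
      have h3 : {g : ℕ → Bool | ∃ s, Ext (t s) g} = ⋃ s, {g | Ext (t s) g} := by
        ext g; simp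
      rw [h3]
      exact isOpen_iUnion fun s => isOpen_Ext _
    refine residual_of_dense_open h2 (dense_of_ext fun σ => ?_)
    exact ⟨ext (t σ), ⟨σ, Ext_ext _⟩, Ext_mono (ht σ) (Ext_ext _)⟩
  filter_upwards [h1, eventually_countable_forall.2 hQ] with g hg1 hg2
  obtain ⟨s, hs⟩ := hg1
  exact hg2 s hs

/-- the local alternative given by uniform determinacy -/
theorem local_game (hφ : Measurable φ) (hinv : ∀ A B, Eqv A B → TR (φ A) (φ B))
    {ψ : (ℕ → Bool) → (ℕ → Bool)} (hψ : Measurable ψ) :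
    (∀ᶠ g in residual (ℕ → Bool), ¬ Ev φ (ψ g)) ∨
    ∃ (s : List Bool) (D : Set (ℕ → Bool)) (H : (ℕ → Bool) → (ℕ → Bool)), MeasurableSet D ∧
      (∀ᶠ y in residual (ℕ → Bool), y ∈ D) ∧ Measurable H ∧
      ∀ y ∈ D, ∀ X, TR (H y) X → TR (ψ (patch s y)) (φ X) := by
  by_contra hcon
  push Not at hcon
  obtain ⟨h1, h2⟩ := hcon
  apply h1
  refine residual_of_local fun s => ?_
  have hW : MeasurableSet {p : (ℕ → Bool) × (ℕ → Bool) × (ℕ → Bool) |
      ¬ TR (ψ (patch s p.1)) (φ (bjoin p.2.1 p.2.2))} := by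
    refine MeasurableSet.compl (measurable_TR_comp ?_ ?_)
    · exact (hψ.comp (continuous_patch s).measurable).comp measurable_fst
    · exact hφ.comp (measurable_bjoin (measurable_fst.comp measurable_snd)
        (measurable_snd.comp measurable_snd))
  rcases uniform_det hW with ⟨D, H, s', -, hD, -, h⟩ | ⟨D, H, hDm, hD, hH, h⟩
  · have h3 : ∀ᶠ y in residual (ℕ → Bool), Ext s' y → ¬ Ev φ (ψ (patch s y)) := by
      filter_upwards [hD] with y hy hys hE
      obtain ⟨B, hB⟩ := hE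
      have hX := h y (hy hys) (bjoin B (H y))
      apply hX
      have h4 : TR (bjoin B (H y)) (bjoin (fun n => H y (encode (pre (bjoin B (H y)) n)))
          (bjoin B (H y))) := tr_bjoin_right _ _
      exact hB _ ((tr_bjoin_left B (H y)).trans h4)
    have h4 := (tendsto_residual_of_isOpenMap (continuous_patch s')
      (isOpenMap_patch s')).eventually h3
    let N : ℕ := max s.length s'.length
    refine ⟨pre (patch s (ext s')) N, ?_, ?_⟩
    · exact prefix_pre (Ext_patch s _) (le_max_left _ _)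
    · filter_upwards [h4] with g hg hgt
      have h5 : patch s (patch s' g) = g := by
        have h6 : ∀ k < N, g k = patch s (ext s') k := by
          have := (Ext_iff_pre (patch s (ext s')) N g).1 hgt
          exact this
        funext k
        rcases Nat.lt_or_ge k s.length with hk | hk
        · rw [h6 k (lt_of_lt_of_le hk (le_max_left _ _)), patch_lt hk, patch_lt hk]
        · rw [patch_ge hk]
          rcases Nat.lt_or_ge k s'.length with hk' | hk'
          · rw [h6 k (lt_of_lt_of_le hk' (le_max_right _ _)), patch_ge hk,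
              patch_lt hk']
            unfold Mart.ext
            rw [List.getElem?_eq_getElem hk']
            rfl
          · rw [patch_ge hk']
      rw [← h5]
      exact hg (Ext_patch s' g)
  · exfalso
    obtain ⟨y, hy, X, hX, hc⟩ := h2 s D H hDm hD hH
    apply h y hy X
    intro h3
    apply hc
    have h4 : TR (fun n => H y (encode (pre X (n + 1)))) X := TR_answer 1 hX (TR.refl X)
    exact h3.trans (hinv _ _ ⟨bjoin_tr (TR.refl X) h4, tr_bjoin_left _ _⟩)

/-- from nonmeager many eventually exceeded generic values, cofinally, to above the identity -/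
theorem aboveId_of_ev (hφ : Measurable φ) (hinv : ∀ A B, Eqv A B → TR (φ A) (φ B))
    {e : (ℕ → Bool) → (ℕ → Bool)} (he : Measurable e) (hs : Spread fun y => φ (e y))
    (hne : ¬ ∀ᶠ y in residual (ℕ → Bool), ¬ Ev φ (φ (e y)))
    (hcof : ∀ C, ∃ A, TR C A ∧ Ev φ (φ A)) : AboveId φ := by
  rcases local_game hφ hinv (ψ := fun y => φ (e y)) (hφ.comp he) with h | ⟨s, D, H, hDm, hD, hH, h⟩
  · exact absurd h hne
  have hψ0 : Measurable fun y => φ (e (patch s y)) :=
    (hφ.comp he).comp (continuous_patch s).measurable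
  have hunc : ¬ ((fun y => φ (e (patch s y))) '' D).Countable :=
    not_countable_of_spread (hs.patch s) hD
  obtain ⟨e', -, he'S, hψ, hη, hinj'⟩ := exists_perfect hψ0 hH hDm hunc
  obtain ⟨p2, hp2⟩ := cont_param hη
  obtain ⟨B0, hB0', B1, hB1⟩ := hcof (cjoin fun n => H (e' (ext (dl n))))
  have hB0 : ∀ σ : List Bool, TR (H (e' (ext σ))) B0 := by
    intro σ
    have h1 := tr_cjoin (fun n => H (e' (ext (dl n)))) (encode σ)
    simp only [dl_encode] at h1
    exact h1.trans hB0'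
  have hx : ∀ σ : List Bool, TR (φ (e (patch s (e' (ext σ))))) (φ B0) :=
    fun σ => h _ (he'S _) _ (hB0 σ)
  obtain ⟨p, hp⟩ := coding hψ hinj' hx
  refine ⟨bjoin (bjoin p p2) B1, fun c hc => ?_⟩
  have hpc : TR p c := ((tr_bjoin_left p p2).trans (tr_bjoin_left _ _)).trans hc
  have hp2c : TR p2 c := ((tr_bjoin_right p p2).trans (tr_bjoin_left _ _)).trans hc
  have hBc : TR B1 c := (tr_bjoin_right _ _).trans hc
  obtain ⟨α, hα, hz⟩ := hp c
  refine hz.trans (WW_tr (hB1 _ hBc) fun j _ => ?_)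
  exact h _ (he'S _) _ (hp2 _ _ hp2c (hα j c hpc (TR.refl c)))

/-! ### generically constant functions -/

/-- `g ↦ φ (b ⊕ g)` is constant on comeager many reals in a cylinder -/
def LC (φ : (ℕ → Bool) → (ℕ → Bool)) (b : ℕ → Bool) : Prop :=
  ∃ σ : List Bool, ∀ n : ℕ, ∃ i : Bool, Fo {g | φ (bjoin b g) n = i} σ

theorem measurable_LC (hφ : Measurable φ) : MeasurableSet {b | LC φ b} := by
  have h1 : {b | LC φ b} = ⋃ σ : List Bool, ⋂ n : ℕ, ⋃ i : Bool,
      {b | Fo {g | φ (bjoin b g) n = i} σ} := by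
    ext b
    simp only [LC, mem_ofPred_eq, mem_iUnion, mem_iInter]
  rw [h1]
  refine MeasurableSet.iUnion fun σ => MeasurableSet.iInter fun n => MeasurableSet.iUnion fun i => ?_
  obtain ⟨B, hB⟩ := exists_code (hφ (measurable_bit n i))
  have h2 := measurable_fo B σ
  rw [hB] at h2
  exact h2

theorem eqv_of_LC (hinv : ∀ A B, Eqv A B → TR (φ A) (φ B)) {b : ℕ → Bool} (h : LC φ b) :
    ∃ d : ℕ → Bool, ∀ᶠ g in residual (ℕ → Bool), Eqv (φ (bjoin b g)) d := by
  obtain ⟨σ, h1⟩ := h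
  choose d hd using h1
  have h2 : ∀ᶠ g in residual (ℕ → Bool), Ext σ g → φ (bjoin b g) = d :=
    (eventually_countable_forall.2 hd).mono fun g hg hs => funext fun n => hg n hs
  have h3 := (tendsto_residual_of_isOpenMap (continuous_patch σ) (isOpenMap_patch σ)).eventually h2
  refine ⟨d, h3.mono fun g hg => ?_⟩
  have h4 := hg (Ext_patch σ g)
  rw [← h4]
  have e1 : Eqv (bjoin b g) (bjoin b (patch σ g)) :=
    ⟨bjoin_tr (tr_bjoin_left b _) ((tr_patch σ g).trans (tr_bjoin_right b _)),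
      bjoin_tr (tr_bjoin_left b g) ((patch_tr σ g).trans (tr_bjoin_right b g))⟩
  exact inv_eqv hinv e1

theorem spread_of_not_LC (hφ : Measurable φ) {b : ℕ → Bool} (h : ¬ LC φ b) :
    Spread fun g => φ (bjoin b g) := by
  intro x
  have hBM : BaireMeasurableSet {g | φ (bjoin b g) = x} :=
    bm_one hφ (continuous_bjoin b) (measurableSet_singleton x)
  have h1 : Fo {g | φ (bjoin b g) = x}ᶜ [] := by
    rw [fo_iff_not hBM.compl, compl_compl]
    intro t _ ht
    apply h
    exact ⟨t, fun n => ⟨x n, Eventually.mono ht fun g hg hgt => congrFun (hg hgt) n⟩⟩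
  exact Eventually.mono h1 fun g hg => hg rfl

theorem LC_of_eqv (hφ : Measurable φ) {b d : ℕ → Bool}
    (h : ∀ᶠ g in residual (ℕ → Bool), Eqv (φ (bjoin b g)) d) : LC φ b := by
  by_contra hcon
  have h1 := spread_of_not_LC hφ hcon
  have h2 : ∀ᶠ g in residual (ℕ → Bool), ∀ x ∈ {x : ℕ → Bool | TR x d}, φ (bjoin b g) ≠ x :=
    (eventually_countable_ball (countable_below d)).2 fun x _ => h1 x
  obtain ⟨g, -, hg1, hg2⟩ := exists_of_residual (h.and h2) []
  exact hg2 _ hg1.1 rfl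

/-- if `φ` is not constant on a cone then `g ↦ φ (b ⊕ g)` is spread for all `b` in a cone -/
theorem spread_cone (hφ : Measurable φ) (hinv : ∀ A B, Eqv A B → TR (φ A) (φ B))
    (hc : ¬ ConstCone φ) : ∃ z, ∀ b, TR z b → Spread fun g => φ (bjoin b g) := by
  have hI : ∀ A B, TR A B → TR B A → A ∈ {b | LC φ b} → B ∈ {b | LC φ b} := by
    intro A B hAB hBA hA
    obtain ⟨d, hd⟩ := eqv_of_LC hinv hA
    refine LC_of_eqv hφ (d := d) (hd.mono fun g hg => ?_)
    have e1 : Eqv (bjoin B g) (bjoin A g) :=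
      ⟨bjoin_tr (hBA.trans (tr_bjoin_left A g)) (tr_bjoin_right A g),
        bjoin_tr (hAB.trans (tr_bjoin_left B g)) (tr_bjoin_right B g)⟩
    exact (inv_eqv hinv e1).trans hg
  rcases cone_dichotomy (measurable_LC hφ) hI with ⟨z, hz⟩ | ⟨z, hz⟩
  · exfalso
    obtain ⟨d, hd⟩ := const_of_generic hφ hinv (z := z) fun b hb => eqv_of_LC hinv (hz b hb)
    rcases cone_eqv hφ hinv d with ⟨B, hB⟩ | ⟨B, hB⟩
    · exact hc ⟨B, d, hB⟩
    · obtain ⟨A, hA1, hA2⟩ := hd B
      exact hB A hA1 (by rw [hA2]; exact Eqv.refl _)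
  · exact ⟨z, fun b hb => spread_of_not_LC hφ (hz b hb)⟩

/-! ### the trichotomy -/

/-- the main theorem -/
theorem trichotomy (hφ : Measurable φ) (hinv : ∀ A B, Eqv A B → TR (φ A) (φ B))
    (hc : ¬ ConstCone φ) (ha : ¬ AboveId φ) :
    ∃ C, ∀ e : (ℕ → Bool) → (ℕ → Bool), Measurable e → (∀ y, TR C (e y)) →
      (Spread fun y => φ (e y)) → ∀ᶠ y in residual (ℕ → Bool), Inc φ (φ (e y)) := by
  by_contra hcon0
  have hcon : ∀ C, ∃ e : (ℕ → Bool) → (ℕ → Bool), Measurable e ∧ (∀ y, TR C (e y)) ∧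
      (Spread fun y => φ (e y)) ∧ ¬ ∀ᶠ y in residual (ℕ → Bool), Inc φ (φ (e y)) := by
    intro C
    by_contra h
    exact hcon0 ⟨C, fun e he heC hs => by_contra fun h' => h ⟨e, he, heC, hs, h'⟩⟩
  have key : ∀ e : (ℕ → Bool) → (ℕ → Bool), (¬ ∀ᶠ y in residual (ℕ → Bool), Inc φ (φ (e y))) →
      ¬ ∀ᶠ y in residual (ℕ → Bool), ¬ Ev φ (φ (e y)) := by
    intro e h1 h2
    exact h1 (h2.mono fun y hy => inc_of_not_ev hφ hinv hc hy)
  obtain ⟨e, he, -, hs, hne⟩ := hcon (fun _ => false)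
  refine ha (aboveId_of_ev hφ hinv he hs (key e hne) fun C => ?_)
  obtain ⟨e', -, he'C, -, hne'⟩ := hcon C
  have h1 : ∃ᶠ y in residual (ℕ → Bool), Ev φ (φ (e' y)) := by
    have := key e' hne'
    exact this
  obtain ⟨y, hy⟩ := h1.exists
  exact ⟨e' y, he'C y, hy⟩

theorem generic_incomparable (hφ : Measurable φ) (hinv : ∀ A B, Eqv A B → TR (φ A) (φ B))
    (hc : ¬ ConstCone φ) (ha : ¬ AboveId φ) :
    ∃ C, (∀ b, TR C b → ∀ᶠ g in residual (ℕ → Bool), Inc φ (φ (bjoin b g))) ∧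
      ∀ e : (ℕ → Bool) → (ℕ → Bool), Measurable e → (∀ y, TR C (e y)) →
      (Spread fun y => φ (e y)) → ∀ᶠ y in residual (ℕ → Bool), Inc φ (φ (e y)) := by
  obtain ⟨C, hC⟩ := trichotomy hφ hinv hc ha
  obtain ⟨z, hz⟩ := spread_cone hφ hinv hc
  refine ⟨bjoin C z, fun b hb => ?_, fun e he heC hs => ?_⟩
  · exact hC (fun g => bjoin b g) (continuous_bjoin b).measurable
      (fun g => ((tr_bjoin_left C z).trans hb).trans (tr_bjoin_left b g))
      (hz b ((tr_bjoin_right C z).trans hb))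
  · exact hC e he (fun y => (tr_bjoin_left C z).trans (heC y)) hs

end Pool.Agent.UDet
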