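import Pool.Agent.Lib.UDet.Exact

/-!
# The reals below `x` and `f x`

If there is no perfect set of reals `a` with `a ≤ f (a ∨ t)`, for some `t`, then the reals which are
computable from `x` and from `f x`, for `x` in a cone, are in any given Borel set which contains all
the reals that are eventually below `f`.
-/

set_option autoImplicit false

namespace Pool.Agent.UDet

open Topology Filter Set TopologicalSpace Pool.Agent.GammaZero Pool.Agent.Mart Pool.Agent.MGen
open Encodable

variable {φ : (ℕ → Bool) → (ℕ → Bool)}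

/-! ### a scheme with a parameter -/

section Scheme

variable (G : (ℕ → Bool) × (ℕ → Bool) → (ℕ → Bool))

/-- `q` splits `s`, for all parameters in the cylinder of `σ` -/
def Good (s σ : List Bool) (q : List Bool × List Bool) : Prop :=
  (s <+: q.1 ∧ s.length < q.1.length) ∧ (s <+: q.2 ∧ s.length < q.2.length) ∧
    ∀ K z z', Ext σ K → Ext q.1 z → Ext q.2 z' → G (K, z) ≠ G (K, z')

variable {G}

theorem pre_of_Ext_pre {x y : ℕ → Bool} {n m : ℕ} (h : Ext (pre x n) y) (hm : m ≤ n) :
    pre y m = pre x m := by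
  rw [Ext_iff_pre] at h
  rw [pre_eq_iff]
  exact fun k hk => h k (lt_of_lt_of_le hk hm)

theorem Ext_pre_self (x : ℕ → Bool) (n : ℕ) : Ext (pre x n) x := by
  rw [Ext_iff_pre]
  exact fun _ _ => rfl

theorem Ext_pre_le {x y : ℕ → Bool} {n m : ℕ} (h : Ext (pre x n) y) (hm : m ≤ n) :
    Ext (pre x m) y := by
  rw [Ext_iff_pre] at h ⊢
  exact fun k hk => h k (lt_of_lt_of_le hk hm)

theorem exists_box {V : Set ((ℕ → Bool) × (ℕ → Bool))} (hV : IsOpen V) {K z : ℕ → Bool}
    (h : (K, z) ∈ V) : ∃ n, ∀ K' z', Ext (pre K n) K' → Ext (pre z n) z' → (K', z') ∈ V := by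
  obtain ⟨A, B, hA, hB, hKA, hzB, hAB⟩ := isOpen_prod_iff.1 hV K z h
  obtain ⟨n1, h1⟩ := Mart.exists_cyl hA hKA
  obtain ⟨n2, h2⟩ := Mart.exists_cyl hB hzB
  refine ⟨max n1 n2, fun K' z' hK hz => hAB ⟨?_, ?_⟩⟩
  · exact h1 _ (Ext_pre_le hK (le_max_left _ _))
  · exact h2 _ (Ext_pre_le hz (le_max_right _ _))

theorem exists_good (hG : Continuous G)
    (hne : ∀ K s, ∃ z z', Ext s z ∧ Ext s z' ∧ G (K, z) ≠ G (K, z')) (s : List Bool)
    (K : ℕ → Bool) : ∃ n, ∃ q, Good G s (pre K n) q := by
  obtain ⟨z, z', hz, hz', hne⟩ := hne K s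
  obtain ⟨k, hk⟩ := Function.ne_iff.1 hne
  have hc : Continuous fun p => G p k := (continuous_apply k).comp hG
  have h1 : IsOpen {p | G p k = G (K, z) k} := (isOpen_discrete {G (K, z) k}).preimage hc
  have h2 : IsOpen {p | G p k = G (K, z') k} := (isOpen_discrete {G (K, z') k}).preimage hc
  obtain ⟨n1, hn1⟩ := exists_box h1 (K := K) (z := z) rfl
  obtain ⟨n2, hn2⟩ := exists_box h2 (K := K) (z := z') rfl
  let n : ℕ := max (max n1 n2) (s.length + 1)
  have hn : n1 ≤ n ∧ n2 ≤ n ∧ s.length < n := by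
    refine ⟨?_, ?_, ?_⟩ <;> simp only [n] <;> omega
  refine ⟨n, (pre z n, pre z' n), ⟨?_, ?_⟩, ⟨?_, ?_⟩, ?_⟩
  · exact prefix_pre hz hn.2.2.le
  · rw [pre_length]; exact hn.2.2
  · exact prefix_pre hz' hn.2.2.le
  · rw [pre_length]; exact hn.2.2
  · intro K' ζ ζ' hK hζ hζ' heq
    have e1 : G (K', ζ) k = G (K, z) k := hn1 _ _ (Ext_pre_le hK hn.1) (Ext_pre_le hζ hn.1)
    have e2 : G (K', ζ') k = G (K, z') k := hn2 _ _ (Ext_pre_le hK hn.2.1) (Ext_pre_le hζ' hn.2.1)
    rw [heq, e2] at e1
    exact hk e1.symm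

open Classical in
/-- the length of the parameter which is used -/
noncomputable def len (h : ∀ s K, ∃ n, ∃ q, Good G s (pre K n) q) (s : List Bool) (K : ℕ → Bool) :
    ℕ := Nat.find (h s K)

/-- the splitting pair -/
noncomputable def pick (h : ∀ s K, ∃ n, ∃ q, Good G s (pre K n) q) (s : List Bool)
    (K : ℕ → Bool) : List Bool × List Bool :=
  Classical.epsilon (Good G s (pre K (len h s K)))

theorem pick_spec (h : ∀ s K, ∃ n, ∃ q, Good G s (pre K n) q) (s : List Bool) (K : ℕ → Bool) :
    Good G s (pre K (len h s K)) (pick h s K) := by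
  classical
  exact Classical.epsilon_spec (Nat.find_spec (h s K))

theorem len_congr (h : ∀ s K, ∃ n, ∃ q, Good G s (pre K n) q) (s : List Bool) {K K' : ℕ → Bool}
    (hK : Ext (pre K (len h s K)) K') : len h s K' = len h s K := by
  classical
  unfold len at hK ⊢
  rw [Nat.find_eq_iff]
  refine ⟨?_, fun n hn => ?_⟩
  · rw [pre_of_Ext_pre hK le_rfl]
    exact Nat.find_spec (h s K)
  · rw [pre_of_Ext_pre hK hn.le]
    exact Nat.find_min (h s K) hn

theorem pick_congr (h : ∀ s K, ∃ n, ∃ q, Good G s (pre K n) q) (s : List Bool) {K K' : ℕ → Bool}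
    (hK : Ext (pre K (len h s K)) K') : pick h s K' = pick h s K := by
  unfold pick
  rw [len_congr h s hK, pre_of_Ext_pre hK le_rfl]

/-- the chain of strings -/
noncomputable def chn (h : ∀ s K, ∃ n, ∃ q, Good G s (pre K n) q) (K w : ℕ → Bool) :
    ℕ → List Bool
  | 0 => []
  | n + 1 => if w n then (pick h (chn h K w n) K).2 else (pick h (chn h K w n) K).1

theorem chn_step (h : ∀ s K, ∃ n, ∃ q, Good G s (pre K n) q) (K w : ℕ → Bool) (n : ℕ) :
    chn h K w n <+: chn h K w (n + 1) ∧ (chn h K w n).length < (chn h K w (n + 1)).length := by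
  have h1 := pick_spec h (chn h K w n) K
  show chn h K w n <+: (if w n then (pick h (chn h K w n) K).2 else (pick h (chn h K w n) K).1) ∧
    (chn h K w n).length <
      (if w n then (pick h (chn h K w n) K).2 else (pick h (chn h K w n) K).1).length
  split_ifs
  · exact h1.2.1
  · exact h1.1

theorem chn_local (h : ∀ s K, ∃ n, ∃ q, Good G s (pre K n) q) (K w : ℕ → Bool) (n : ℕ) :
    ∃ m, ∀ K' w', Ext (pre K m) K' → Ext (pre w n) w' → chn h K' w' n = chn h K w n := by
  induction n with
  | zero => exact ⟨0, fun _ _ _ _ => rfl⟩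
  | succ n ih =>
    obtain ⟨m, hm⟩ := ih
    refine ⟨max m (len h (chn h K w n) K), fun K' w' hK hw => ?_⟩
    have h1 := hm K' w' (Ext_pre_le hK (le_max_left _ _)) (Ext_pre_le hw (Nat.le_succ n))
    have h2 : w' n = w n := (Ext_iff_pre _ _ _).1 hw n (Nat.lt_succ_self n)
    show (if w' n then (pick h (chn h K' w' n) K').2 else (pick h (chn h K' w' n) K').1) =
      (if w n then (pick h (chn h K w n) K).2 else (pick h (chn h K w n) K).1)
    rw [h1, h2, pick_congr h _ (Ext_pre_le hK (le_max_right _ _))]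

theorem le_length_chn (h : ∀ s K, ∃ n, ∃ q, Good G s (pre K n) q) (K w : ℕ → Bool) (n : ℕ) :
    n ≤ (chn h K w n).length := by
  induction n with
  | zero => exact Nat.zero_le _
  | succ n ih => exact lt_of_le_of_lt ih (chn_step h K w n).2

/-- **a continuous family of perfect sets on which `G (K, ·)` is injective** -/
theorem exists_family (hG : Continuous G)
    (hne : ∀ K s, ∃ z z', Ext s z ∧ Ext s z' ∧ G (K, z) ≠ G (K, z')) :
    ∃ Z : (ℕ → Bool) × (ℕ → Bool) → (ℕ → Bool), Continuous Z ∧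
      ∀ K w w', G (K, Z (K, w)) = G (K, Z (K, w')) → w = w' := by
  have h := exists_good hG hne
  refine ⟨fun p => Mart.lim (chn h p.1 p.2), ?_, fun K w w' heq => ?_⟩
  · refine continuous_pi fun k => continuous_iff_continuousAt.2 fun p => ?_
    obtain ⟨m, hm⟩ := chn_local h p.1 p.2 (k + 1)
    have hnb : {q : (ℕ → Bool) × (ℕ → Bool) | Ext (pre p.1 m) q.1 ∧ Ext (pre p.2 (k + 1)) q.2} ∈
        𝓝 p := by
      refine IsOpen.mem_nhds ?_ ⟨Ext_pre_self _ _, Ext_pre_self _ _⟩
      exact ((isOpen_Ext _).preimage continuous_fst).inter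
        ((isOpen_Ext _).preimage continuous_snd)
    refine ContinuousAt.congr (f := fun _ => Mart.lim (chn h p.1 p.2) k) continuousAt_const ?_
    filter_upwards [hnb] with q hq
    unfold Mart.lim
    rw [hm q.1 q.2 hq.1 hq.2]
  · by_contra hw
    have hex : ∃ n, w n ≠ w' n := Function.ne_iff.1 hw
    classical
    let n := Nat.find hex
    have hn : w n ≠ w' n := Nat.find_spec hex
    have hlt : ∀ i < n, w i = w' i := fun i hi => not_not.1 (Nat.find_min hex hi)
    have h0 : ∀ i ≤ n, chn h K w i = chn h K w' i := by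
      intro i
      induction i with
      | zero => exact fun _ => rfl
      | succ i ih =>
        intro hi
        show (if w i then (pick h (chn h K w i) K).2 else (pick h (chn h K w i) K).1) =
          (if w' i then (pick h (chn h K w' i) K).2 else (pick h (chn h K w' i) K).1)
        rw [ih (by omega), hlt i (by omega)]
    have h1 := pick_spec h (chn h K w n) K
    have e1 := Ext_lim (chn h K w) (fun i => (chn_step h K w i).1) (fun i => (chn_step h K w i).2)
      (n + 1)
    have e2 := Ext_lim (chn h K w') (fun i => (chn_step h K w' i).1)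
      (fun i => (chn_step h K w' i).2) (n + 1)
    have e1' : chn h K w (n + 1) =
        (if w n then (pick h (chn h K w n) K).2 else (pick h (chn h K w n) K).1) := rfl
    have e2' : chn h K w' (n + 1) =
        (if w' n then (pick h (chn h K w' n) K).2 else (pick h (chn h K w' n) K).1) := rfl
    rw [e1'] at e1
    rw [e2', ← h0 n le_rfl] at e2
    have hK := Ext_pre_self K (len h (chn h K w n) K)
    cases hwn : w n with
    | false =>
      have hwn' : w' n = true := by
        cases hw' : w' n with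
        | false => exact absurd (hwn.trans hw'.symm) hn
        | true => rfl
      rw [hwn, if_neg (by simp)] at e1
      rw [hwn', if_pos rfl] at e2
      exact h1.2.2 K _ _ hK e1 e2 heq
    | true =>
      have hwn' : w' n = false := by
        cases hw' : w' n with
        | false => rfl
        | true => exact absurd (hwn.trans hw'.symm) hn
      rw [hwn, if_pos rfl] at e1
      rw [hwn', if_neg (by simp)] at e2
      exact h1.2.2 K _ _ hK e2 e1 heq.symm

end Scheme

/-! ### halves of a real -/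

/-- the first half -/
def ev (c : ℕ → Bool) (n : ℕ) : Bool := c (2 * n)

/-- the second half -/
def od (c : ℕ → Bool) (n : ℕ) : Bool := c (2 * n + 1)

theorem continuous_ev : Continuous ev := continuous_pi fun n => continuous_apply (2 * n)

theorem continuous_od : Continuous od := continuous_pi fun n => continuous_apply (2 * n + 1)

theorem ev_bjoin (a b : ℕ → Bool) : ev (bjoin a b) = a := by
  funext n
  unfold ev bjoin
  rw [if_pos (by omega)]
  congr 1
  omega

theorem od_bjoin (a b : ℕ → Bool) : od (bjoin a b) = b := by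
  funext n
  unfold od bjoin
  rw [if_neg (by omega)]
  congr 1
  omega

theorem eq_of_halves {c c' : ℕ → Bool} (h1 : ev c = ev c') (h2 : od c = od c') : c = c' := by
  funext n
  rcases Nat.even_or_odd' n with ⟨k, rfl | rfl⟩
  · exact congrFun h1 k
  · exact congrFun h2 k

theorem continuous_bjoin₂ : Continuous fun p : (ℕ → Bool) × (ℕ → Bool) => bjoin p.1 p.2 := by
  refine continuous_pi fun n => ?_
  unfold bjoin
  by_cases hn : n % 2 = 0
  · simp only [if_pos hn]
    exact (continuous_apply (n / 2)).comp continuous_fst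
  · simp only [if_neg hn]
    exact (continuous_apply (n / 2)).comp continuous_snd

/-! ### continuity -/

/-- the answers of the table `T` against `u` -/
def ans (T u : ℕ → Bool) (n : ℕ) : Bool := T (encode (pre u (n + 1)))

theorem continuous_ans (T : ℕ → Bool) : Continuous (ans T) := by
  refine continuous_pi fun n => continuous_iff_continuousAt.2 fun u => ?_
  have hnb : {v : ℕ → Bool | Ext (pre u (n + 1)) v} ∈ 𝓝 u :=
    (isOpen_Ext _).mem_nhds (Ext_pre_self _ _)
  refine ContinuousAt.congr (f := fun _ => ans T u n) continuousAt_const ?_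
  filter_upwards [hnb] with v hv
  unfold ans
  rw [pre_of_Ext_pre hv le_rfl]

theorem res_congr {x y : ℕ → Bool} {e k s : ℕ} (h : pre x s.unpair.1 = pre y s.unpair.1) :
    res x e k s = res y e k s := by
  unfold res
  rw [h]

theorem U_congr {x y : ℕ → Bool} {e k t v : ℕ} (h : Ext (pre x t) y) (hU : U x e k t v) :
    U y e k t v := by
  obtain ⟨s, hs, h1, h2⟩ := hU
  have h3 : ∀ s' < t, res y e k s' = res x e k s' := by
    intro s' hs'
    refine res_congr (pre_of_Ext_pre h ?_)
    exact (Nat.unpair_left_le s').trans hs'.le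
  exact ⟨s, hs, by rw [h3 s hs]; exact h1, fun s' hs' => by rw [h3 s' (hs'.trans hs)]; exact h2 s' hs'⟩

/-- the value of a total computation is continuous -/
theorem continuous_tmF_comp {Y : (ℕ → Bool) × (ℕ → Bool) → (ℕ → Bool)} (hY : Continuous Y) {e : ℕ}
    (h : ∀ p, Idx (Y p) e (tmF e (Y p))) : Continuous fun p => tmF e (Y p) := by
  refine continuous_pi fun k => continuous_iff_continuousAt.2 fun p => ?_
  obtain ⟨t, ht⟩ := h p k
  have hnb : {q | Ext (pre (Y p) t) (Y q)} ∈ 𝓝 p :=
    ((isOpen_Ext _).preimage hY).mem_nhds (Ext_pre_self _ _)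
  refine ContinuousAt.congr (f := fun _ => tmF e (Y p) k) continuousAt_const ?_
  filter_upwards [hnb] with q hq
  obtain ⟨t', ht'⟩ := h q k
  exact toNat_inj ((U_congr hq ht).unique ht')

/-! ### the reals below `x` and `φ x` -/

/-- the reals computed by the program `e`, below the value, outside of `S` -/
def Pc (φ : (ℕ → Bool) → (ℕ → Bool)) (S : Set (ℕ → Bool)) (e : ℕ) : Set (ℕ → Bool) :=
  {y | Idx y e (tmF e y) ∧ TR (tmF e y) (φ y) ∧ tmF e y ∉ S}

theorem measurable_Pc (hφ : Measurable φ) {S : Set (ℕ → Bool)} (hS : MeasurableSet S) (e : ℕ) :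
    MeasurableSet (Pc φ S e) := by
  have h1 : MeasurableSet {y : ℕ → Bool | Idx y e (tmF e y)} :=
    (measurable_id.prodMk (measurable_tmF e)) (measurable_idx e)
  have h2 : MeasurableSet {y : ℕ → Bool | TR (tmF e y) (φ y)} :=
    measurable_TR_comp (measurable_tmF e) hφ
  have h3 : MeasurableSet {y : ℕ → Bool | tmF e y ∉ S} := (measurable_tmF e hS).compl
  exact h1.inter (h2.inter h3)

/-- a pointed perfect tree inside one of countably many Borel sets -/
theorem exists_pointed {A : ℕ → Set (ℕ → Bool)} (hA : ∀ e, MeasurableSet (A e))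
    (hcof : ∀ C, ∃ X, TR C X ∧ ∃ e, X ∈ A e) :
    ∃ e T, ∀ u, TR u (ans T u) ∧ ans T u ∈ A e := by
  by_contra hcon
  have key : ∀ e, ∃ T : ℕ → Bool, ∀ v, TR T v → v ∉ A e := by
    intro e
    have hW : MeasurableSet {p : (ℕ → Bool) × (ℕ → Bool) × (ℕ → Bool) |
        ¬ (TR p.2.1 p.2.2 ∧ p.2.2 ∈ A e)} := by
      refine MeasurableSet.compl (MeasurableSet.inter ?_ ?_)
      · exact measurable_TR_comp (measurable_fst.comp measurable_snd)
          (measurable_snd.comp measurable_snd)
      · exact (measurable_snd.comp measurable_snd) (hA e)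
    rcases uniform_det hW with ⟨D, H, s, -, hD, -, h⟩ | ⟨D, H, -, hD, -, h⟩
    · obtain ⟨y, hy1, hy2⟩ := exists_of_residual hD s
      refine ⟨H y, fun v hv hvA => ?_⟩
      exact h y (hy2 hy1) v ⟨TR_answer 0 hv (TR.refl v), hvA⟩
    · exfalso
      obtain ⟨y, -, hy2⟩ := exists_of_residual hD []
      exact hcon ⟨e, H y, fun u => not_not.1 (h y hy2 u)⟩
  choose T hT using key
  obtain ⟨X, hX, e, he⟩ := hcof (cjoin T)
  exact hT e X ((tr_cjoin T e).trans hX) he

/-- a perfect set of reals `a` with `a ≤ φ (a ⊕ t)` -/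
def PerfMeet (φ : (ℕ → Bool) → (ℕ → Bool)) : Prop :=
  ∃ (e : (ℕ → Bool) → (ℕ → Bool)) (t : ℕ → Bool), Continuous e ∧ Function.Injective e ∧
    (∀ y, TR (e y) (φ (bjoin (e y) t))) ∧ ∀ X, TR t X → TR X (bjoin (φ X) t)

/-- **the reals below `x` and `φ x`** -/
theorem meet_in (hφ : Measurable φ) (hinv : ∀ A B, Eqv A B → TR (φ A) (φ B))
    (hm : ¬ PerfMeet φ) {S : Set (ℕ → Bool)} (hS : MeasurableSet S) (hFS : ∀ a, Ev φ a → a ∈ S) :
    ∃ C, ∀ X, TR C X → ∀ a, TR a X → TR a (φ X) → a ∈ S := by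
  by_contra hcon
  have hcof : ∀ C, ∃ X, TR C X ∧ ∃ e, X ∈ Pc φ S e := by
    intro C
    by_contra h
    refine hcon ⟨C, fun X hX a ha1 ha2 => by_contra fun haS => h ⟨X, hX, ?_⟩⟩
    obtain ⟨e, he⟩ := exists_idx ha1
    have h1 := tmF_eq he
    refine ⟨e, ?_, ?_, ?_⟩
    · rw [h1]; exact he
    · rw [h1]; exact ha2
    · rw [h1]; exact haS
  obtain ⟨e, T, hT⟩ := exists_pointed (measurable_Pc hφ hS) hcof
  let Y : (ℕ → Bool) × (ℕ → Bool) → (ℕ → Bool) := fun p => ans T (bjoin p.1 p.2)
  have hY : Continuous Y := (continuous_ans T).comp continuous_bjoin₂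
  have hYP : ∀ p, Y p ∈ Pc φ S e := fun p => (hT (bjoin p.1 p.2)).2
  have hYb : ∀ p, TR (bjoin p.1 p.2) (Y p) := fun p => (hT (bjoin p.1 p.2)).1
  let G : (ℕ → Bool) × (ℕ → Bool) → (ℕ → Bool) := fun p => tmF e (Y p)
  have hG : Continuous G := continuous_tmF_comp hY fun p => (hYP p).1
  have hne : ∀ K s, ∃ z z', Ext s z ∧ Ext s z' ∧ G (K, z) ≠ G (K, z') := by
    intro K s
    by_contra h
    have h1 : ∀ z, Ext s z → G (K, z) = G (K, Mart.ext s) := by
      intro z hz
      by_contra hzz
      exact h ⟨z, Mart.ext s, hz, Ext_ext s, hzz⟩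
    rcases cone_above hφ hinv (G (K, Mart.ext s)) with h2 | ⟨B, hB⟩
    · exact (hYP (K, Mart.ext s)).2.2 (hFS _ h2)
    · have h3 := hYb (K, patch s B)
      have h4 : TR B (Y (K, patch s B)) :=
        ((tr_patch s B).trans (tr_bjoin_right K (patch s B))).trans h3
      refine hB _ h4 ?_
      rw [← h1 (patch s B) (Ext_patch s B)]
      exact (hYP (K, patch s B)).2.1
  obtain ⟨Z, hZ, hinj⟩ := exists_family hG hne
  have hpair : Continuous fun c : ℕ → Bool => (ev c, od c) := continuous_ev.prodMk continuous_od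
  obtain ⟨p, hp⟩ := cont_param (g := fun c => Z (ev c, od c)) (hZ.comp hpair)
  have hF1 : Continuous fun c : ℕ → Bool => bjoin (ev c) (G (ev c, Z (ev c, od c))) :=
    continuous_bjoin₂.comp (continuous_ev.prodMk
      (hG.comp (continuous_ev.prodMk (hZ.comp hpair))))
  have hF2 : Continuous fun c : ℕ → Bool => bjoin (ev c) (Z (ev c, od c)) :=
    continuous_bjoin₂.comp (continuous_ev.prodMk (hZ.comp hpair))
  have hi1 : Function.Injective fun c : ℕ → Bool => bjoin (ev c) (G (ev c, Z (ev c, od c))) := by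
    intro c c' h
    have h1 := congrArg ev h
    have h2 := congrArg od h
    simp only [ev_bjoin, od_bjoin] at h1 h2
    refine eq_of_halves h1 (hinj (ev c) _ _ ?_)
    rw [h2, h1]
  have hi2 : Function.Injective fun c : ℕ → Bool => bjoin (ev c) (Z (ev c, od c)) := by
    intro c c' h
    have h1 := congrArg ev h
    have h2 := congrArg od h
    simp only [ev_bjoin, od_bjoin] at h1 h2
    refine eq_of_halves h1 (hinj (ev c) _ _ ?_)
    rw [h2, h1]
  obtain ⟨t1, ht1⟩ := inverse_param hF1 hi1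
  obtain ⟨t2, ht2⟩ := inverse_param hF2 hi2
  let K : ℕ → Bool := bjoin (bjoin T p) (bjoin t1 t2)
  have kT : TR T K := (tr_bjoin_left T p).trans (tr_bjoin_left _ _)
  have kp : TR p K := (tr_bjoin_right T p).trans (tr_bjoin_left _ _)
  have k1 : TR t1 K := (tr_bjoin_left t1 t2).trans (tr_bjoin_right _ _)
  have k2 : TR t2 K := (tr_bjoin_right t1 t2).trans (tr_bjoin_right _ _)
  have z1 : ∀ w c, TR K c → TR w c → TR (Z (K, w)) c := by
    intro w c hK hw
    have h1 := hp (bjoin K w) c (kp.trans hK) (bjoin_tr hK hw)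
    simp only [ev_bjoin, od_bjoin] at h1
    exact h1
  have y1 : ∀ w c, TR K c → TR w c → TR (Y (K, Z (K, w))) c := fun w c hK hw =>
    TR_answer 1 (kT.trans hK) (bjoin_tr hK (z1 w c hK hw))
  have yK : ∀ w, TR K (Y (K, Z (K, w))) := fun w =>
    (tr_bjoin_left K (Z (K, w))).trans (hYb (K, Z (K, w)))
  have y2 : ∀ w, TR w (Y (K, Z (K, w))) := by
    intro w
    have h1 := ht2 (bjoin K w)
    simp only [ev_bjoin, od_bjoin] at h1
    exact (tr_bjoin_right K w).trans (h1.trans (bjoin_tr (hYb (K, Z (K, w))) (k2.trans (yK w))))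
  have w1 : ∀ w c, TR K c → TR (G (K, Z (K, w))) c → TR w c := by
    intro w c hK hG
    have h1 := ht1 (bjoin K w)
    simp only [ev_bjoin, od_bjoin] at h1
    exact (tr_bjoin_right K w).trans (h1.trans (bjoin_tr (bjoin_tr hK hG) (k1.trans hK)))
  have a0 : ∀ w, TR (G (K, Z (K, w))) (Y (K, Z (K, w))) := fun w =>
    tr_of_idx (hYP (K, Z (K, w))).1
  have a1 : ∀ w, TR (G (K, Z (K, w))) (φ (Y (K, Z (K, w)))) := fun w =>
    (hYP (K, Z (K, w))).2.1
  refine hm ⟨fun w => G (K, Z (K, w)), K, ?_, fun w w' h => hinj K w w' h, fun w => ?_,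
    fun w hw => ?_⟩
  · exact hG.comp (continuous_const.prodMk (hZ.comp (continuous_const.prodMk continuous_id)))
  · refine (a1 w).trans (hinv _ _ ⟨?_, bjoin_tr (a0 w) (yK w)⟩)
    have hK : TR K (bjoin (G (K, Z (K, w))) K) := tr_bjoin_right _ _
    exact y1 w _ hK (w1 w _ hK (tr_bjoin_left _ _))
  · refine w1 w _ (tr_bjoin_right _ _) (TR.trans ?_ (tr_bjoin_left (φ w) K))
    exact (a1 w).trans (hinv _ _ ⟨y1 w w hw (TR.refl w), y2 w⟩)

end Pool.Agent.UDet
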