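import Pool.Agent.Lib.UDet.Trich
import Pool.Agent.Lib.MGen.Fam

/-!
# The common part of a generic value and the values in a cone

If there is no perfect set of reals which are eventually below `f`, then the reals which are
computable from a generic value of `f` and from `f x`, for `x` in a cone, are those in a fixed
countable set.
-/

set_option autoImplicit false

namespace Pool.Agent.UDet

open Topology Filter Set TopologicalSpace Pool.Agent.GammaZero Pool.Agent.Mart Pool.Agent.MGen
open Encodable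

variable {φ : (ℕ → Bool) → (ℕ → Bool)}

/-- a perfect set of reals `a` with `a ≤ φ X` for all `X ≥ a ⊕ t` -/
def PerfBelow (φ : (ℕ → Bool) → (ℕ → Bool)) : Prop :=
  ∃ (e : (ℕ → Bool) → (ℕ → Bool)) (t : ℕ → Bool), Continuous e ∧ Function.Injective e ∧
    (∀ y X, TR (bjoin (e y) t) X → TR (e y) (φ X)) ∧ ∀ X, TR t X → TR X (bjoin (φ X) t)

/-- the inverse of a continuous injective map of Cantor space extends to a continuous map -/
theorem exists_inverse {F : (ℕ → Bool) → (ℕ → Bool)} (hF : Continuous F)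
    (hi : Function.Injective F) : ∃ g : (ℕ → Bool) → (ℕ → Bool), Continuous g ∧ ∀ w, g (F w) = w := by
  have hce : IsClosedEmbedding F := hF.isClosedEmbedding hi
  obtain ⟨r, hr1, hr2, hr3⟩ := PiNat.exists_retraction_of_isClosed (E := fun _ : ℕ => Bool)
    hce.isClosed_range (range_nonempty F)
  let h := hce.toIsEmbedding.toHomeomorph
  refine ⟨fun x => h.symm ⟨r x, by rw [← hr2]; exact mem_range_self x⟩, ?_, fun w => ?_⟩
  · exact h.symm.continuous.comp (hr3.subtype_mk _)
  · have h1 : (⟨r (F w), by rw [← hr2]; exact mem_range_self (F w)⟩ : range F) = h w := by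
      apply Subtype.ext
      show r (F w) = F w
      exact hr1 _ (mem_range_self w)
    show h.symm _ = w
    rw [h1]
    exact h.symm_apply_apply w

theorem inverse_param {F : (ℕ → Bool) → (ℕ → Bool)} (hF : Continuous F)
    (hi : Function.Injective F) : ∃ t, ∀ w, TR w (bjoin (F w) t) := by
  obtain ⟨g, hg, hgF⟩ := exists_inverse hF hi
  obtain ⟨p, hp⟩ := cont_param hg
  refine ⟨p, fun w => ?_⟩
  have h := hp (F w) (bjoin (F w) p) (tr_bjoin_right _ _) (tr_bjoin_left _ _)
  rw [hgF] at h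
  exact h

/-- nonmeager many eventually exceeded reals yield a perfect set -/
theorem perfBelow_of_ev (hφ : Measurable φ) (hinv : ∀ A B, Eqv A B → TR (φ A) (φ B))
    {ψ : (ℕ → Bool) → (ℕ → Bool)} (hψ : Measurable ψ) (hs : Spread ψ)
    (hne : ¬ ∀ᶠ y in residual (ℕ → Bool), ¬ Ev φ (ψ y)) : PerfBelow φ := by
  rcases local_game hφ hinv hψ with h | ⟨s, D, H, hDm, hD, hH, h⟩
  · exact absurd h hne
  have hψ0 : Measurable fun y => ψ (patch s y) := hψ.comp (continuous_patch s).measurable
  have hunc : ¬ ((fun y => ψ (patch s y)) '' D).Countable :=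
    not_countable_of_spread (hs.patch s) hD
  obtain ⟨e', -, he'S, hc, hη, hinj'⟩ := exists_perfect hψ0 hH hDm hunc
  obtain ⟨p2, hp2⟩ := cont_param hη
  obtain ⟨p3, hp3⟩ := cont_param hc
  obtain ⟨t, ht⟩ := inverse_param hc hinj'
  have key : ∀ y X, TR t X → TR p2 X → TR (ψ (patch s (e' y))) X →
      TR (ψ (patch s (e' y))) (φ X) := by
    intro y X ht1 hp1 h1
    have hy : TR y X := (ht y).trans (bjoin_tr h1 ht1)
    exact h _ (he'S y) _ (hp2 y X hp1 hy)
  refine ⟨fun y => ψ (patch s (e' y)), bjoin (bjoin t p2) p3, hc, hinj', fun y X hX => ?_,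
    fun X hX => ?_⟩
  · have h1 : TR (bjoin (bjoin t p2) p3) X := (tr_bjoin_right _ _).trans hX
    have h2 : TR (bjoin t p2) X := (tr_bjoin_left _ _).trans h1
    exact key y X ((tr_bjoin_left _ _).trans h2) ((tr_bjoin_right _ _).trans h2)
      ((tr_bjoin_left _ _).trans hX)
  · have h2 : TR (bjoin t p2) X := (tr_bjoin_left _ _).trans hX
    have h3 : TR (ψ (patch s (e' X))) X := hp3 X X ((tr_bjoin_right _ _).trans hX) (TR.refl X)
    have h4 := key X X ((tr_bjoin_left _ _).trans h2) ((tr_bjoin_right _ _).trans h2) h3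
    refine (ht X).trans (bjoin_tr (h4.trans (tr_bjoin_left _ _)) ?_)
    exact ((tr_bjoin_left t p2).trans (tr_bjoin_left _ p3)).trans (tr_bjoin_right _ _)

/-! ### the ideal of the generic values -/

/-- the reals computable from comeager many `φ (b ⊕ g)` and from `φ X` for all `X` in a cone -/
def II (φ : (ℕ → Bool) → (ℕ → Bool)) (b : ℕ → Bool) : Set (ℕ → Bool) :=
  {a | Ev φ a ∧ ∀ᶠ g in residual (ℕ → Bool), TR a (φ (bjoin b g))}

theorem bm_idx (hφ : Measurable φ) (b : ℕ → Bool) (e : ℕ) (a : ℕ → Bool) :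
    BaireMeasurableSet {g | Idx (φ (bjoin b g)) e a} := by
  have h : MeasurableSet {x : ℕ → Bool | Idx x e a} := by
    have h1 : Measurable fun x : ℕ → Bool => (x, a) := measurable_id.prodMk measurable_const
    exact h1 (measurable_idx e)
  exact bm_one hφ (continuous_bjoin b) h

theorem fo_idx_unique {b : ℕ → Bool} {e : ℕ} {s : List Bool} {a a' : ℕ → Bool}
    (h : Fo {g | Idx (φ (bjoin b g)) e a} s) (h' : Fo {g | Idx (φ (bjoin b g)) e a'} s) :
    a = a' := by
  obtain ⟨g, h1, h2⟩ := h.disj h' (Ext_ext s) (Ext_ext s)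
  rw [← tmF_eq h1, ← tmF_eq h2]

theorem countable_II (hφ : Measurable φ) (b : ℕ → Bool) : (II φ b).Countable := by
  have h1 : II φ b ⊆ ⋃ p : ℕ × List Bool, {a | Fo {g | Idx (φ (bjoin b g)) p.1 a} p.2} := by
    rintro a ⟨-, ha⟩
    have h2 : Fo {g | ∀ k, g ∉ {g | Idx (φ (bjoin b g)) k a}}ᶜ [] := by
      refine Eventually.mono ha fun g hg _ hg' => ?_
      obtain ⟨e, he⟩ := exists_idx hg
      exact hg' e he
    obtain ⟨k, t, -, h3⟩ := fo_some (fun k => bm_idx hφ b k a) h2
    exact mem_iUnion.2 ⟨(k, t), h3⟩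
  refine (countable_iUnion fun p => Set.Subsingleton.countable ?_).mono h1
  intro a ha a' ha'
  exact fo_idx_unique ha ha'

/-- local to global: a real computable from nonmeager many generic values -/
theorem global_of_fo (hinv : ∀ A B, Eqv A B → TR (φ A) (φ B)) {b : ℕ → Bool} {e : ℕ}
    {s : List Bool} {a : ℕ → Bool} (h : Fo {g | Idx (φ (bjoin b g)) e a} s) :
    ∀ᶠ g in residual (ℕ → Bool), TR a (φ (bjoin b g)) := by
  have h3 := (tendsto_residual_of_isOpenMap (continuous_patch s) (isOpenMap_patch s)).eventually h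
  refine h3.mono fun g hg => ?_
  have h4 : Idx (φ (bjoin b (patch s g))) e a := hg (Ext_patch s g)
  have e1 : Eqv (bjoin b (patch s g)) (bjoin b g) :=
    ⟨bjoin_tr (tr_bjoin_left b g) ((patch_tr s g).trans (tr_bjoin_right b g)),
      bjoin_tr (tr_bjoin_left b _) ((tr_patch s g).trans (tr_bjoin_right b _))⟩
  exact (tr_of_idx h4).trans (hinv _ _ e1)

/-- for comeager many `g`, the eventually exceeded reals below `φ (b ⊕ g)` are in the ideal -/
theorem generic_below (hφ : Measurable φ) (hinv : ∀ A B, Eqv A B → TR (φ A) (φ B))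
    (hm : ¬ PerfBelow φ) (b : ℕ → Bool) :
    ∀ᶠ g in residual (ℕ → Bool), ∀ a, TR a (φ (bjoin b g)) → Ev φ a → a ∈ II φ b := by
  classical
  have key : ∀ e : ℕ, ∀ᶠ g in residual (ℕ → Bool),
      Idx (φ (bjoin b g)) e (tmF e (φ (bjoin b g))) → Ev φ (tmF e (φ (bjoin b g))) →
      tmF e (φ (bjoin b g)) ∈ II φ b := by
    intro e
    let ψ : (ℕ → Bool) → (ℕ → Bool) := fun g => tmF e (φ (bjoin b g))
    have hφb : Measurable fun g => φ (bjoin b g) := hφ.comp (continuous_bjoin b).measurable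
    have hψ : Measurable ψ := (measurable_tmF e).comp hφb
    let Tot : Set (ℕ → Bool) := {g | Idx (φ (bjoin b g)) e (ψ g)}
    have hTot : MeasurableSet Tot := (hφb.prodMk hψ) (measurable_idx e)
    let Ae : Set (ℕ → Bool) := {a | ∃ s, Fo {g | Idx (φ (bjoin b g)) e a} s}
    have hAe : Ae.Countable := by
      have h1 : Ae = ⋃ s : List Bool, {a | Fo {g | Idx (φ (bjoin b g)) e a} s} := by
        ext a
        simp only [Ae, mem_ofPred_eq, mem_iUnion]
      rw [h1]
      refine countable_iUnion fun s => Set.Subsingleton.countable ?_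
      intro a ha a' ha'
      exact fo_idx_unique ha ha'
    let G : Set (ℕ → Bool) := Tot ∩ (ψ ⁻¹' Ae)ᶜ
    have hG : MeasurableSet G := hTot.inter (hψ hAe.measurableSet).compl
    let ψ' : (ℕ → Bool) → (ℕ → Bool) := fun g => if g ∈ G then ψ g else g
    have hψ' : Measurable ψ' := Measurable.ite hG hψ measurable_id
    have hsp : Spread ψ' := by
      intro x
      by_cases hx : x ∈ Ae
      · refine (residual_ne x).mono fun g hg hgx => ?_
        by_cases hgG : g ∈ G
        · have h1 : ψ' g = ψ g := if_pos hgG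
          rw [h1] at hgx
          exact hgG.2 (by show ψ g ∈ Ae; rw [hgx]; exact hx)
        · have h1 : ψ' g = g := if_neg hgG
          rw [h1] at hgx
          exact hg hgx
      · have h1 : Fo {g | Idx (φ (bjoin b g)) e x}ᶜ [] := by
          rw [fo_iff_not (bm_idx hφ b e x).compl, compl_compl]
          intro t _ ht
          exact hx ⟨t, ht⟩
        filter_upwards [residual_ne x, h1] with g hg hg' hgx
        by_cases hgG : g ∈ G
        · have h2 : ψ' g = ψ g := if_pos hgG
          rw [h2] at hgx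
          have h3 : Idx (φ (bjoin b g)) e (ψ g) := hgG.1
          rw [hgx] at h3
          exact hg' rfl h3
        · have h2 : ψ' g = g := if_neg hgG
          rw [h2] at hgx
          exact hg hgx
    have h2 : ∀ᶠ y in residual (ℕ → Bool), ¬ Ev φ (ψ' y) := by
      by_contra hcon
      exact hm (perfBelow_of_ev hφ hinv hψ' hsp hcon)
    refine h2.mono fun g hg htot hev => ?_
    by_cases hgA : ψ g ∈ Ae
    · obtain ⟨s, hs⟩ := hgA
      exact ⟨hev, global_of_fo hinv hs⟩
    · exfalso
      apply hg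
      have h3 : ψ' g = ψ g := if_pos ⟨htot, hgA⟩
      rw [h3]
      exact hev
  filter_upwards [eventually_countable_forall.2 key] with g hg a ha hev
  obtain ⟨e, he⟩ := exists_idx ha
  have h1 := hg e
  rw [tmF_eq he] at h1
  exact h1 he hev

/-- the exact pair property of generic values -/
theorem generic_exact (hφ : Measurable φ) (hinv : ∀ A B, Eqv A B → TR (φ A) (φ B))
    (hm : ¬ PerfBelow φ) (b : ℕ → Bool) :
    ∀ᶠ g in residual (ℕ → Bool), ∃ B, ∀ X, TR B X →
      ∀ a, (TR a (φ (bjoin b g)) ∧ TR a (φ X)) ↔ a ∈ II φ b := by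
  have h1 : ∀ᶠ g in residual (ℕ → Bool), ∀ a ∈ II φ b, TR a (φ (bjoin b g)) :=
    (eventually_countable_ball (countable_II hφ b)).2 fun a ha => ha.2
  filter_upwards [generic_below hφ hinv hm b, h1] with g hg1 hg2
  obtain ⟨f, hf⟩ := (countable_below (φ (bjoin b g))).exists_eq_range ⟨_, TR.refl _⟩
  have h2 : ∀ n, ∃ B, ∀ X, TR B X → (TR (f n) (φ X) ↔ Ev φ (f n)) := by
    intro n
    rcases cone_above hφ hinv (f n) with ⟨B, hB⟩ | ⟨B, hB⟩
    · exact ⟨B, fun X hX => ⟨fun _ => ⟨B, hB⟩, fun _ => hB X hX⟩⟩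
    · refine ⟨B, fun X hX => ⟨fun h => absurd h (hB X hX), fun h => ?_⟩⟩
      obtain ⟨B', hB'⟩ := h
      exact absurd (hB' (bjoin B B') (tr_bjoin_right _ _)) (hB _ (tr_bjoin_left _ _))
  choose B hB using h2
  refine ⟨cjoin B, fun X hX a => ⟨fun ⟨ha1, ha2⟩ => ?_, fun ha => ⟨hg2 a ha, ?_⟩⟩⟩
  · have h3 : a ∈ {x : ℕ → Bool | TR x (φ (bjoin b g))} := ha1
    rw [hf] at h3
    obtain ⟨n, rfl⟩ := h3
    exact hg1 _ ha1 ((hB n X ((tr_cjoin B n).trans hX)).1 ha2)
  · have h3 : a ∈ {x : ℕ → Bool | TR x (φ (bjoin b g))} := hg2 a ha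
    rw [hf] at h3
    obtain ⟨n, rfl⟩ := h3
    exact (hB n X ((tr_cjoin B n).trans hX)).2 ha.1

end Pool.Agent.UDet
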