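import Pool.Agent.Lib.UDet.Meas

/-!
Uniform Borel determinacy: Borel families of games `G_y` with a real parameter `y` are determined
uniformly for comeager many `y` (in a cylinder), with a strategy which is a Borel function of `y`.
Martin's cone theorem for Borel sets.
-/

set_option autoImplicit false

namespace Pool.Agent.Mart

open Pool.Agent.GammaZero Encodable Pool.Agent.BorelDet

instance : MeasurableSpace Mv := ⊤

theorem measurable_coord (i : ℕ) (m : Option Mv) : MeasurableSet {x : ℕ → Mv | some (x i) = m} := by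
  have h : Measurable fun x : ℕ → Mv => x i := measurable_pi_apply i
  exact h (t := {v | some v = m}) trivial

theorem measurable_prefixList (n : ℕ) (v : List Mv) :
    MeasurableSet {x : ℕ → Mv | prefixList x n = v} := by
  have h : {x : ℕ → Mv | prefixList x n = v} =
      {_x | v.length = n} ∩ ⋂ i ∈ Set.Iio n, {x : ℕ → Mv | some (x i) = v[i]?} := by
    ext x
    simp only [Set.mem_ofPred_eq, Set.mem_inter_iff, Set.mem_iInter, Set.mem_Iio]
    constructor
    · rintro rfl
      exact ⟨length_prefixList x n, fun i hi => (prefixList_getElem? x hi).symm⟩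
    · rintro ⟨h1, h2⟩
      apply List.ext_getElem?
      intro i
      by_cases hi : i < n
      · rw [prefixList_getElem? x hi, h2 i hi]
      · rw [List.getElem?_eq_none (by rw [length_prefixList]; omega),
          List.getElem?_eq_none (by omega)]
  rw [h]
  exact (MeasurableSet.const _).inter
    (MeasurableSet.biInter (Set.to_countable _) fun i _ => measurable_coord _ _)

theorem measurable_Yr : Measurable Yr := by
  rw [measurable_pi_iff]
  intro k
  refine measurable_to_bool ?_
  have h : (fun x => Yr x k) ⁻¹' {true} =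
      ⋃ v : List Mv, ({x | prefixList x (k + 1) = v} ∩ {_x | ((cat v)[k]?).getD false = true}) := by
    ext x
    simp only [Yr, Set.mem_preimage, Set.mem_singleton_iff, Set.mem_iUnion, Set.mem_inter_iff,
      Set.mem_ofPred_eq, exists_eq_left']
  rw [h]
  exact MeasurableSet.iUnion fun v => (measurable_prefixList _ _).inter (MeasurableSet.const _)

theorem measurable_bits (g : ℕ → ℕ) : Measurable fun (x : ℕ → Mv) (n : ℕ) => (x (g n)).bit := by
  rw [measurable_pi_iff]
  intro n
  have h : Measurable fun x : ℕ → Mv => x (g n) := measurable_pi_apply (g n)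
  have h2 : Measurable Mv.bit := fun _ _ => trivial
  exact h2.comp h

/-- **Uniform Borel determinacy.** -/
theorem uniform_det {W : Set ((ℕ → Bool) × (ℕ → Bool) × (ℕ → Bool))} (hW : MeasurableSet W) :
    (∃ (C : Set (ℕ → Bool)) (H : (ℕ → Bool) → (ℕ → Bool)) (s : List Bool), MeasurableSet C ∧
      (∀ᶠ y in residual (ℕ → Bool), Ext s y → y ∈ C) ∧ Measurable H ∧
      ∀ y ∈ C, ∀ v : ℕ → Bool, (y, (fun n => H y (encode (pre v n))), v) ∈ W) ∨
    (∃ (C : Set (ℕ → Bool)) (H : (ℕ → Bool) → (ℕ → Bool)), MeasurableSet C ∧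
      (∀ᶠ y in residual (ℕ → Bool), y ∈ C) ∧ Measurable H ∧
      ∀ y ∈ C, ∀ u : ℕ → Bool, (y, u, (fun n => H y (encode (pre u (n + 1))))) ∉ W) := by
  have hA : MeasurableSet {x : ℕ → Mv | (Yr x, (fun n => (x (2 * n)).bit),
      (fun n => (x (2 * n + 1)).bit)) ∈ W} :=
    (measurable_Yr.prodMk ((measurable_bits fun n => 2 * n).prodMk
      (measurable_bits fun n => 2 * n + 1))) hW
  rcases borel_determinacy (X := Mv) hA with ⟨σ, hσ⟩ | ⟨τ, hτ⟩
  · left
    refine ⟨GenC σ [σ []], tab σ [σ []], cat [σ []], measurable_GenC _ _, GenC_residual _ _,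
      measurable_tab _ _, fun y hy v => ?_⟩
    have h1 : plx σ [σ []] y v ∈ {x : ℕ → Mv | (Yr x, (fun n => (x (2 * n)).bit),
        (fun n => (x (2 * n + 1)).bit)) ∈ W} := by
      refine hσ _ fun n => ?_
      cases n with
      | zero =>
        have h2 := plx_init (τ := σ) [σ []] y v (k := 0) (by simp)
        rw [Nat.mul_zero, h2]
        rfl
      | succ m =>
        have h2 := plx_own (τ := σ) [σ []] y v m
        have h3 : [σ []].length + 2 * m + 1 = 2 * (m + 1) := by simp only [List.length_singleton]; omega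
        rw [h3] at h2
        exact h2
    rw [Set.mem_ofPred_eq, Yr_plx hy] at h1
    have h2 : (fun n => (plx σ [σ []] y v (2 * n)).bit) =
        fun n => tab σ [σ []] y (encode (pre v n)) := by
      funext n
      have h3 := tab_eq (τ := σ) [σ []] y v n (by simp)
      have h4 : [σ []].length + 2 * n - 1 = 2 * n := by simp only [List.length_singleton]; omega
      rw [h4] at h3
      exact h3
    have h5 : (fun n => (plx σ [σ []] y v (2 * n + 1)).bit) = v := by
      funext n
      have h3 := plx_opp (τ := σ) [σ []] y v n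
      have h4 : [σ []].length + 2 * n = 2 * n + 1 := by simp only [List.length_singleton]; omega
      rw [h4] at h3
      exact h3
    rw [h2, h5] at h1
    exact h1
  · right
    refine ⟨GenC τ [], tab τ [], measurable_GenC _ _, ?_, measurable_tab _ _, fun y hy u => ?_⟩
    · filter_upwards [GenC_residual τ []] with y hy
      exact hy rfl
    have h1 : plx τ [] y u ∉ {x : ℕ → Mv | (Yr x, (fun n => (x (2 * n)).bit),
        (fun n => (x (2 * n + 1)).bit)) ∈ W} := by
      refine hτ _ fun n => ?_
      have h2 := plx_own (τ := τ) [] y u n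
      have h3 : ([] : List Mv).length + 2 * n + 1 = 2 * n + 1 := by
        simp only [List.length_nil]; omega
      rw [h3] at h2
      exact h2
    rw [Set.mem_ofPred_eq, Yr_plx hy] at h1
    have h2 : (fun n => (plx τ [] y u (2 * n + 1)).bit) =
        fun n => tab τ [] y (encode (pre u (n + 1))) := by
      funext n
      have h3 := tab_eq (τ := τ) [] y u (n + 1) (by simp)
      have h4 : ([] : List Mv).length + 2 * (n + 1) - 1 = 2 * n + 1 := by
        simp only [List.length_nil]; omega
      rw [h4] at h3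
      exact h3
    have h5 : (fun n => (plx τ [] y u (2 * n)).bit) = u := by
      funext n
      have h3 := plx_opp (τ := τ) [] y u n
      have h4 : ([] : List Mv).length + 2 * n = 2 * n := by
        simp only [List.length_nil]; omega
      rw [h4] at h3
      exact h3
    rw [h2, h5] at h1
    exact h1

/-- the answers of a strategy are computable from its table and the moves of the opponent -/
theorem TR_answer {T β c : ℕ → Bool} (k : ℕ) (hT : TR T c) (hβ : TR β c) :
    TR (fun n => T (encode (pre β (n + k)))) c := by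
  rw [tr_iff_ci]
  have h1 : CI {orc c} (fun n : ℕ => encode (pre β (n + k))) :=
    CI.comp (ci_tr (ci_pre β) hβ) (CI.add (CI.of_computable Computable.id) (CI.const k))
  exact ci_orc_comp hT h1

/-! ### Turing reducibility is a Borel relation -/

theorem measurable_TR :
    MeasurableSet {p : (ℕ → Bool) × (ℕ → Bool) | TR p.1 p.2} := by
  have h1 : {p : (ℕ → Bool) × (ℕ → Bool) | TR p.1 p.2} =
      ⋃ e : ℕ, ⋂ k : ℕ, ⋃ t : ℕ, ⋃ b : Bool, ({p | p.1 k = b} ∩ {p | U p.2 e k t b.toNat}) := by
    ext p
    simp only [Set.mem_ofPred_eq, tr_iff_idx, Idx, Set.mem_iUnion, Set.mem_iInter,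
      Set.mem_inter_iff, exists_eq_left']
  rw [h1]
  refine MeasurableSet.iUnion fun e => MeasurableSet.iInter fun k =>
    MeasurableSet.iUnion fun t => MeasurableSet.iUnion fun b => MeasurableSet.inter ?_ ?_
  · have h2 : Measurable fun p : (ℕ → Bool) × (ℕ → Bool) => p.1 k :=
      (measurable_pi_apply k).comp measurable_fst
    exact h2 (measurableSet_singleton b)
  · exact measurable_snd (measurable_U e k t b.toNat)

theorem measurable_TR_comp {Z : Type} [MeasurableSpace Z] {f g : Z → (ℕ → Bool)}
    (hf : Measurable f) (hg : Measurable g) : MeasurableSet {z | TR (f z) (g z)} :=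
  (hf.prodMk hg) measurable_TR

theorem measurable_bjoin {Z : Type} [MeasurableSpace Z] {f g : Z → (ℕ → Bool)}
    (hf : Measurable f) (hg : Measurable g) : Measurable fun z => bjoin (f z) (g z) := by
  rw [measurable_pi_iff]
  intro n
  unfold bjoin
  by_cases hn : n % 2 = 0
  · simp only [if_pos hn]
    exact (measurable_pi_apply (n / 2)).comp hf
  · simp only [if_neg hn]
    exact (measurable_pi_apply (n / 2)).comp hg

/-- **Martin's cone theorem** for Borel sets of reals -/
theorem cone_dichotomy {S : Set (ℕ → Bool)} (hS : MeasurableSet S)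
    (hinv : ∀ A B, TR A B → TR B A → A ∈ S → B ∈ S) :
    (∃ B, ∀ X, TR B X → X ∈ S) ∨ (∃ B, ∀ X, TR B X → X ∉ S) := by
  have hW : MeasurableSet {p : (ℕ → Bool) × (ℕ → Bool) × (ℕ → Bool) | bjoin p.2.1 p.2.2 ∈ S} :=
    (measurable_bjoin (measurable_fst.comp measurable_snd) (measurable_snd.comp measurable_snd)) hS
  rcases uniform_det hW with ⟨C, H, s, -, hC, -, h⟩ | ⟨C, H, -, hC, -, h⟩
  · left
    obtain ⟨y, hy1, hy2⟩ := exists_of_residual hC s
    refine ⟨H y, fun X hX => ?_⟩
    have h1 := h y (hy2 hy1) X
    exact hinv _ _ (bjoin_tr (TR_answer 0 hX (TR.refl X)) (TR.refl X)) (tr_bjoin_right _ _) h1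
  · right
    obtain ⟨y, -, hy2⟩ := exists_of_residual hC []
    refine ⟨H y, fun X hX hXS => ?_⟩
    refine h y hy2 X ?_
    exact hinv _ _ (tr_bjoin_left _ _) (bjoin_tr (TR.refl X) (TR_answer 1 hX (TR.refl X))) hXS

/-- the conclusion of the first part of Martin's conjecture -/
def Concl (φ : (ℕ → Bool) → (ℕ → Bool)) : Prop :=
  (∃ C D, ∀ A, TR C A → TR (φ A) D ∧ TR D (φ A)) ∨ ∃ C, ∀ A, TR C A → TR A (φ A)

/-- values which are eventually above: no regularity of the modulus is needed -/
theorem martin_of_eventually {φ : (ℕ → Bool) → (ℕ → Bool)} (hφ : Measurable φ) {C : ℕ → Bool}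
    (hev : ∀ A, TR C A → ∃ B, ∀ X, TR B X → TR (φ A) (φ X)) : Concl φ := by
  by_cases hcount : (φ '' {A | TR C A}).Countable
  · left
    obtain ⟨f, hf⟩ := hcount.exists_eq_range ⟨φ C, C, TR.refl C, rfl⟩
    have h1 : ∀ n, ∃ A, TR C A ∧ φ A = f n := by
      intro n
      have h2 : f n ∈ φ '' {A | TR C A} := by rw [hf]; exact Set.mem_range_self n
      exact h2
    choose A hA hAf using h1
    choose m hm using fun n => hev (A n) (hA n)
    refine ⟨bjoin C (cjoin m), φ (bjoin C (cjoin m)), ?_⟩
    have h3 : ∀ B, TR (bjoin C (cjoin m)) B → ∀ n, TR (f n) (φ B) := by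
      intro B hB n
      rw [← hAf n]
      exact hm n B (((tr_cjoin m n).trans (tr_bjoin_right _ _)).trans hB)
    have h4 : ∀ B, TR C B → ∃ n, φ B = f n := by
      intro B hB
      have h5 : φ B ∈ Set.range f := by rw [← hf]; exact ⟨B, hB, rfl⟩
      obtain ⟨n, hn⟩ := h5
      exact ⟨n, hn.symm⟩
    intro B hB
    obtain ⟨n, hn⟩ := h4 B ((tr_bjoin_left _ _).trans hB)
    obtain ⟨k, hk⟩ := h4 (bjoin C (cjoin m)) (tr_bjoin_left _ _)
    refine ⟨?_, ?_⟩
    · rw [hn]
      exact h3 _ (TR.refl _) n
    · rw [hk]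
      exact h3 B hB k
  · right
    obtain ⟨e, he, heS, -, -, hinj⟩ := exists_perfect hφ measurable_id (measurable_cone C) hcount
    have hφe : Measurable fun y => φ (e y) := hφ.comp he.measurable
    have hW : MeasurableSet {p : (ℕ → Bool) × (ℕ → Bool) × (ℕ → Bool) |
        TR p.2.2 p.2.1 ∧ ¬ TR (φ (e p.1)) (φ p.2.1)} := by
      refine MeasurableSet.inter ?_ (MeasurableSet.compl ?_)
      · exact measurable_TR_comp (measurable_snd.comp measurable_snd)
          (measurable_fst.comp measurable_snd)
      · exact measurable_TR_comp (hφe.comp measurable_fst)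
          (hφ.comp (measurable_fst.comp measurable_snd))
    rcases uniform_det hW with ⟨D, H, s, -, hD, -, h⟩ | ⟨D, H, hDm, hD, hH, h⟩
    · exfalso
      obtain ⟨y, hy1, hy2⟩ := exists_of_residual hD s
      obtain ⟨B, hB⟩ := hev (e y) (heS y)
      obtain ⟨h1, h2⟩ := h y (hy2 hy1) B
      exact h2 (hB _ h1)
    · have hkey : ∀ y ∈ D, ∀ X, TR (H y) X → TR (φ (e y)) (φ X) := by
        intro y hy X hX
        by_contra hc
        exact h y hy X ⟨TR_answer 1 hX (TR.refl X), hc⟩
      have hunc : ¬ ((fun y => φ (e y)) '' D).Countable := by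
        intro hc
        refine not_countable_of_residual (C := D) (σ := []) ?_
          (Set.countable_of_injective_of_countable_image hinj.injOn hc)
        filter_upwards [hD] with y hy _
        exact hy
      obtain ⟨e', -, he'S, hψ, hη, hinj'⟩ := exists_perfect hφe hH hDm hunc
      obtain ⟨p2, hp2⟩ := cont_param hη
      let B0 : ℕ → Bool := bjoin C (cjoin fun n => H (e' (ext (dl n))))
      have hB0 : ∀ σ : List Bool, TR (H (e' (ext σ))) B0 := by
        intro σ
        have h1 := tr_cjoin (fun n => H (e' (ext (dl n)))) (encode σ)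
        simp only [dl_encode] at h1
        exact h1.trans (tr_bjoin_right _ _)
      have hx : ∀ σ : List Bool, TR (φ (e (e' (ext σ)))) (φ B0) :=
        fun σ => hkey _ (he'S _) _ (hB0 σ)
      obtain ⟨p, hp⟩ := coding hψ hinj' hx
      obtain ⟨B1, hB1⟩ := hev B0 (tr_bjoin_left _ _)
      refine ⟨bjoin (bjoin p p2) B1, fun c hc => ?_⟩
      have hpc : TR p c := ((tr_bjoin_left p p2).trans (tr_bjoin_left _ _)).trans hc
      have hp2c : TR p2 c := ((tr_bjoin_right p p2).trans (tr_bjoin_left _ _)).trans hc
      have hBc : TR B1 c := (tr_bjoin_right _ _).trans hc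
      obtain ⟨α, hα, hz⟩ := hp c
      refine hz.trans (WW_tr (hB1 _ hBc) fun j _ => ?_)
      exact hkey _ (he'S _) _ (hp2 _ _ hp2c (hα j c hpc (TR.refl c)))

/-- the degree invariant version: cofinally many values are enough -/
theorem martin_of_cofinal {φ : (ℕ → Bool) → (ℕ → Bool)} (hφ : Measurable φ)
    (hinv : ∀ A B, TR A B → TR B A → TR (φ A) (φ B)) {C : ℕ → Bool}
    (hcof : ∀ A, TR C A → ∀ B, ∃ X, TR B X ∧ TR (φ A) (φ X)) : Concl φ := by
  refine martin_of_eventually hφ (C := C) fun A hA => ?_
  have hS : MeasurableSet {X | TR (φ A) (φ X)} := measurable_TR_comp measurable_const hφ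
  rcases cone_dichotomy hS (fun X Y hXY hYX hX => hX.trans (hinv X Y hXY hYX)) with h | ⟨B, hB⟩
  · exact h
  · obtain ⟨X, hX1, hX2⟩ := hcof A hA B
    exact absurd hX2 (hB X hX1)

end Pool.Agent.Mart
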