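import Pool.Agent.Lib.UDet.Play

/-!
Games with a generic parameter: measurability and category.
-/

set_option autoImplicit false

namespace Pool.Agent.Mart

open Pool.Agent.GammaZero Encodable Pool.Agent.BorelDet

variable {τ : List Mv → Mv}

theorem measurable_Ext (σ : List Bool) : MeasurableSet {y : ℕ → Bool | Ext σ y} :=
  measurable_pre σ.length (fun l => l = σ)

theorem measurable_GenC (τ : List Mv → Mv) (L0 : List Mv) : MeasurableSet (GenC τ L0) := by
  have h : GenC τ L0 = {y | Ext (cat L0) y} ∩ ⋂ (L : List Mv), ⋂ (i : Bool),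
      ({y | Ext (cat L) y}ᶜ ∪ ⋃ n : ℕ, {y | Ext (cat (nxt τ L i n)) y}) := by
    ext y
    simp only [GenC, Set.mem_ofPred_eq, Set.mem_inter_iff, Set.mem_iInter, Set.mem_union,
      Set.mem_compl_iff, Set.mem_iUnion, imp_iff_not_or]
  rw [h]
  exact (measurable_Ext _).inter (MeasurableSet.iInter fun L => MeasurableSet.iInter fun i =>
    (measurable_Ext _).compl.union (MeasurableSet.iUnion fun n => measurable_Ext _))

theorem sInf_eq_iff (S : Set ℕ) (v : ℕ) :
    sInf S = v ↔ (v ∈ S ∧ ∀ m < v, m ∉ S) ∨ (v = 0 ∧ ∀ m, m ∉ S) := by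
  constructor
  · intro h
    by_cases hS : S.Nonempty
    · left
      refine ⟨h ▸ Nat.sInf_mem hS, fun m hm => ?_⟩
      rw [← h] at hm
      exact Nat.notMem_of_lt_sInf hm
    · right
      have h1 : S = ∅ := Set.not_nonempty_iff_eq_empty.1 hS
      subst h1
      exact ⟨by rw [← h]; exact Nat.sInf_empty, fun m hm => hm⟩
  · rintro (⟨h1, h2⟩ | ⟨h1, h2⟩)
    · apply le_antisymm (Nat.sInf_le h1)
      by_contra hc
      exact h2 _ (not_le.1 hc) (Nat.sInf_mem ⟨v, h1⟩)
    · have h3 : S = ∅ := Set.eq_empty_iff_forall_notMem.2 h2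
      rw [h3, h1]
      exact Nat.sInf_empty

theorem measurable_qf (τ : List Mv → Mv) (L : List Mv) (i : Bool) (v : ℕ) :
    MeasurableSet {y : ℕ → Bool | qf τ y L i = v} := by
  have h : {y : ℕ → Bool | qf τ y L i = v} =
      ({y | Ext (cat (nxt τ L i v)) y} ∩ ⋂ m ∈ Set.Iio v, {y | Ext (cat (nxt τ L i m)) y}ᶜ) ∪
      ({_y | v = 0} ∩ ⋂ m : ℕ, {y | Ext (cat (nxt τ L i m)) y}ᶜ) := by
    ext y
    unfold qf
    simp only [Set.mem_ofPred_eq, sInf_eq_iff, Set.mem_union, Set.mem_inter_iff, Set.mem_iInter,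
      Set.mem_Iio, Set.mem_compl_iff]
  rw [h]
  refine MeasurableSet.union ?_ ?_
  · exact (measurable_Ext _).inter (MeasurableSet.biInter (Set.to_countable _)
      fun m _ => (measurable_Ext _).compl)
  · exact (MeasurableSet.const _).inter (MeasurableSet.iInter fun m => (measurable_Ext _).compl)

theorem measurable_step (τ : List Mv → Mv) (L : List Mv) (i : Bool) (v : List Mv) :
    MeasurableSet {y : ℕ → Bool | step τ y L i = v} := by
  have h : {y : ℕ → Bool | step τ y L i = v} =
      ⋃ n : ℕ, ({y | qf τ y L i = n} ∩ {_y | nxt τ L i n = v}) := by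
    ext y
    simp only [step, Set.mem_ofPred_eq, Set.mem_iUnion, Set.mem_inter_iff, exists_eq_left']
  rw [h]
  exact MeasurableSet.iUnion fun n => (measurable_qf _ _ _ _).inter (MeasurableSet.const _)

theorem measurable_pos (τ : List Mv → Mv) (L0 : List Mv) (β : List Bool) (v : List Mv) :
    MeasurableSet {y : ℕ → Bool | pos τ L0 y β = v} := by
  induction β using List.reverseRecOn generalizing v with
  | nil => exact MeasurableSet.const (L0 = v)
  | append_singleton β i ih =>
    have h : {y : ℕ → Bool | pos τ L0 y (β ++ [i]) = v} =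
        ⋃ L : List Mv, ({y | pos τ L0 y β = L} ∩ {y | step τ y L i = v}) := by
      ext y
      simp only [Set.mem_ofPred_eq, Set.mem_iUnion, Set.mem_inter_iff, exists_eq_left']
      unfold pos
      rw [List.foldl_append]
      rfl
    rw [h]
    exact MeasurableSet.iUnion fun L => (ih L).inter (measurable_step _ _ _ _)

theorem measurable_tab (τ : List Mv → Mv) (L0 : List Mv) : Measurable (tab τ L0) := by
  rw [measurable_pi_iff]
  intro n
  refine measurable_to_bool ?_
  have h : (fun y => tab τ L0 y n) ⁻¹' {true} =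
      ⋃ L : List Mv, ({y | pos τ L0 y (dl n) = L} ∩ {_y | lastBit L = true}) := by
    ext y
    simp only [tab, Set.mem_preimage, Set.mem_singleton_iff, Set.mem_iUnion, Set.mem_inter_iff,
      Set.mem_ofPred_eq, exists_eq_left']
  rw [h]
  exact MeasurableSet.iUnion fun L => (measurable_pos _ _ _ _).inter (MeasurableSet.const _)

/-! ### category -/

theorem isOpen_Ext (σ : List Bool) : IsOpen {y : ℕ → Bool | Ext σ y} := by
  by_cases h : ∃ z, Ext σ z
  · obtain ⟨z, hz⟩ := h
    have h1 : {y : ℕ → Bool | Ext σ y} = {y : ℕ → Bool | ∀ k < σ.length, y k = z k} := by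
      ext y
      show pre y σ.length = σ ↔ ∀ k < σ.length, y k = z k
      rw [← pre_eq_iff, show pre z σ.length = σ from hz]
    rw [h1]
    exact isOpen_cyl z _
  · have h1 : {y : ℕ → Bool | Ext σ y} = ∅ := by
      ext y
      simp only [Set.mem_ofPred_eq, Set.mem_empty_iff_false, iff_false]
      exact fun hy => h ⟨y, hy⟩
    rw [h1]
    exact isOpen_empty

theorem isClosed_Ext (σ : List Bool) : IsClosed {y : ℕ → Bool | Ext σ y} := by
  have h1 : {y : ℕ → Bool | Ext σ y} = ⋂ k : Fin σ.length, {y : ℕ → Bool | y k = σ.get k} := by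
    ext y
    simp only [Set.mem_ofPred_eq, Ext_iff, Set.mem_iInter, List.get_eq_getElem]
    constructor
    · intro h k
      have := h k k.2
      rw [List.getElem?_eq_getElem k.2] at this
      exact (Option.some.inj this).symm
    · intro h k hk
      rw [List.getElem?_eq_getElem hk, ← h ⟨k, hk⟩]
  rw [h1]
  refine isClosed_iInter fun k => ?_
  have h2 : Continuous fun y : ℕ → Bool => y k := continuous_apply _
  exact (isClosed_discrete {σ.get k}).preimage h2

theorem exists_cyl {U : Set (ℕ → Bool)} (hU : IsOpen U) {z : ℕ → Bool} (hz : z ∈ U) :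
    ∃ n, ∀ β : ℕ → Bool, Ext (pre z n) β → β ∈ U := by
  have h := (PiNat.isTopologicalBasis_cylinders (fun _ : ℕ => Bool)).exists_subset_of_mem_open hz hU
  obtain ⟨V, ⟨x, n, rfl⟩, hzV, hVU⟩ := h
  refine ⟨n, fun β hβ => hVU ?_⟩
  rw [PiNat.mem_cylinder_iff] at hzV ⊢
  intro i hi
  have h1 := (Ext_iff_pre z n β).1 hβ i hi
  rw [h1, hzV i hi]

theorem dense_of_ext {D : Set (ℕ → Bool)} (h : ∀ σ : List Bool, ∃ y ∈ D, Ext σ y) : Dense D := by
  rw [dense_iff_inter_open]
  rintro U hU ⟨z, hz⟩
  obtain ⟨n, hn⟩ := exists_cyl hU hz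
  obtain ⟨y, hyD, hy⟩ := h (pre z n)
  exact ⟨y, hn y hy, hyD⟩

/-- the dense open set of one requirement -/
def Req (τ : List Mv → Mv) (p : List Mv × Bool) : Set (ℕ → Bool) :=
  {y | Ext (cat p.1) y → ∃ n, Ext (cat (nxt τ p.1 p.2 n)) y}

theorem isOpen_Req (τ : List Mv → Mv) (p : List Mv × Bool) : IsOpen (Req τ p) := by
  have h : Req τ p = {y | Ext (cat p.1) y}ᶜ ∪ ⋃ n : ℕ, {y | Ext (cat (nxt τ p.1 p.2 n)) y} := by
    ext y
    simp only [Req, Set.mem_ofPred_eq, Set.mem_union, Set.mem_compl_iff, Set.mem_iUnion,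
      imp_iff_not_or]
  rw [h]
  exact (isClosed_Ext _).isOpen_compl.union (isOpen_iUnion fun n => isOpen_Ext _)

theorem dense_Req (τ : List Mv → Mv) (p : List Mv × Bool) : Dense (Req τ p) := by
  refine dense_of_ext fun σ => ?_
  by_cases h : Ext (cat p.1) (ext σ)
  · -- extend `σ` beyond `cat p.1`
    let N : ℕ := max σ.length ((cat p.1).length + 1)
    have hN1 : σ.length ≤ N := le_max_left _ _
    have hN2 : (cat p.1).length + 1 ≤ N := le_max_right _ _
    have hpre : cat p.1 <+: pre (ext σ) N := prefix_pre h (by omega)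
    obtain ⟨t, ht⟩ := hpre
    have hlen : t.length = N - (cat p.1).length := by
      have := congrArg List.length ht
      rw [List.length_append, pre_length] at this
      omega
    obtain ⟨b, l, rfl⟩ : ∃ b l, t = b :: l := by
      cases t with
      | nil => simp at hlen; omega
      | cons b l => exact ⟨b, l, rfl⟩
    refine ⟨ext (cat (nxt τ p.1 p.2 (encode (b, l)))), fun _ => ⟨encode (b, l), Ext_ext _⟩, ?_⟩
    refine Ext_mono ?_ (Ext_ext (cat (nxt τ p.1 p.2 (encode (b, l)))))
    have h1 : σ <+: pre (ext σ) N := prefix_pre (Ext_ext σ) hN1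
    refine h1.trans ?_
    rw [← ht]
    unfold nxt
    rw [cat_append, cat_append, cat_singleton, dq_encode]
    exact List.prefix_append _ _
  · exact ⟨ext σ, fun h' => absurd h' h, Ext_ext σ⟩

theorem mem_GenC_iff (τ : List Mv → Mv) (L0 : List Mv) (y : ℕ → Bool) :
    y ∈ GenC τ L0 ↔ Ext (cat L0) y ∧ ∀ p, y ∈ Req τ p := by
  unfold GenC Req
  simp only [Set.mem_ofPred_eq, Prod.forall]

/-- the generic set is comeager in a cylinder -/
theorem GenC_residual (τ : List Mv → Mv) (L0 : List Mv) :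
    ∀ᶠ y in residual (ℕ → Bool), Ext (cat L0) y → y ∈ GenC τ L0 := by
  have h : ∀ p, ∀ᶠ y in residual (ℕ → Bool), y ∈ Req τ p := fun p =>
    residual_of_dense_open (isOpen_Req τ p) (dense_Req τ p)
  filter_upwards [eventually_countable_forall.2 h] with y hy h0
  exact (mem_GenC_iff _ _ _).2 ⟨h0, hy⟩

theorem residual_ne (z : ℕ → Bool) : ∀ᶠ y in residual (ℕ → Bool), y ≠ z := by
  have h1 : IsOpen {y : ℕ → Bool | y ≠ z} := isOpen_compl_singleton
  refine residual_of_dense_open h1 (dense_of_ext fun σ => ?_)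
  by_cases h : ext σ = z
  · refine ⟨ext (σ ++ [!(z σ.length)]), ?_, ?_⟩
    · intro hc
      have h2 := congrFun hc σ.length
      unfold ext at h2
      simp at h2
    · exact Ext_mono (List.prefix_append _ _) (Ext_ext _)
  · exact ⟨ext σ, h, Ext_ext σ⟩

/-- a set which is comeager in a cylinder meets every cylinder inside it -/
theorem exists_of_residual {P : (ℕ → Bool) → Prop} (h : ∀ᶠ y in residual (ℕ → Bool), P y)
    (σ : List Bool) : ∃ y, Ext σ y ∧ P y := by
  have h1 : Dense {y | P y} := dense_of_mem_residual h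
  obtain ⟨y, hy1, hy2⟩ := h1.inter_open_nonempty _ (isOpen_Ext σ) ⟨ext σ, Ext_ext σ⟩
  exact ⟨y, hy1, hy2⟩

theorem not_countable_of_residual {C : Set (ℕ → Bool)} {σ : List Bool}
    (h : ∀ᶠ y in residual (ℕ → Bool), Ext σ y → y ∈ C) : ¬ C.Countable := by
  intro hC
  have h1 : ∀ᶠ y in residual (ℕ → Bool), ∀ z ∈ C, y ≠ z :=
    (eventually_countable_ball hC).2 fun z _ => residual_ne z
  obtain ⟨y, hy, hy2⟩ := exists_of_residual (h.and h1) σ
  exact hy2.2 y (hy2.1 hy) rfl

end Pool.Agent.Mart
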