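import Pool.Agent.Lib.BorelDet.Final
import Pool.Agent.Lib.MP_d1129e_lc.T1

/-!
Games with a generic parameter: both players build a real `y` by extending finite strings, and in
addition play one bit per move.
-/

set_option autoImplicit false

namespace Pool.Agent.Mart

open Pool.Agent.GammaZero Encodable Pool.Agent.BorelDet

/-- a move: the nonempty string `hd :: tl` and a bit -/
structure Mv where
  hd : Bool
  tl : List Bool
  bit : Bool

instance : Inhabited Mv := ⟨⟨false, [], false⟩⟩

instance : Nonempty Mv := ⟨default⟩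

instance : Countable Mv := by
  have h : Function.Injective fun m : Mv => ((m.hd, m.tl, m.bit) : Bool × List Bool × Bool) := by
    rintro ⟨a, b, c⟩ ⟨a', b', c'⟩ h
    simp only [Prod.mk.injEq] at h
    obtain ⟨rfl, rfl, rfl⟩ := h
    rfl
  exact h.countable

def str (m : Mv) : List Bool := m.hd :: m.tl

def cat (L : List Mv) : List Bool := L.flatMap str

theorem cat_append (L L' : List Mv) : cat (L ++ L') = cat L ++ cat L' := by
  unfold cat; exact List.flatMap_append

theorem cat_singleton (m : Mv) : cat [m] = str m := by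
  simp [cat]

theorem length_le_cat (L : List Mv) : L.length ≤ (cat L).length := by
  induction L with
  | nil => simp
  | cons a L ih =>
    have : cat (a :: L) = str a ++ cat L := rfl
    rw [this, List.length_append, List.length_cons]
    have h : 1 ≤ (str a).length := by simp [str]
    omega

theorem prefixList_succ {X : Type} (x : ℕ → X) (n : ℕ) :
    prefixList x (n + 1) = prefixList x n ++ [x n] := by
  unfold prefixList
  rw [List.ofFn_succ']
  simp

theorem length_prefixList {X : Type} (x : ℕ → X) (n : ℕ) : (prefixList x n).length = n := by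
  unfold prefixList; exact List.length_ofFn

theorem prefixList_prefix {X : Type} (x : ℕ → X) {m n : ℕ} (h : m ≤ n) :
    prefixList x m <+: prefixList x n := by
  induction n, h using Nat.le_induction with
  | base => exact List.prefix_rfl
  | succ n _ ih => exact ih.trans (by rw [prefixList_succ]; exact List.prefix_append _ _)

theorem prefixList_getElem? {X : Type} (x : ℕ → X) {n i : ℕ} (h : i < n) :
    (prefixList x n)[i]? = some (x i) := by
  unfold prefixList
  rw [List.getElem?_ofFn]
  simp [h]

theorem cat_prefix {L L' : List Mv} (h : L <+: L') : cat L <+: cat L' := by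
  obtain ⟨t, rfl⟩ := h
  rw [cat_append]
  exact List.prefix_append _ _

/-- the real built in a play -/
def Yr (x : ℕ → Mv) (k : ℕ) : Bool := ((cat (prefixList x (k + 1)))[k]?).getD false

theorem Yr_unique {x : ℕ → Mv} {y : ℕ → Bool} (h : ∀ n, Ext (cat (prefixList x n)) y) :
    Yr x = y := by
  funext k
  have h1 := (Ext_iff _ _).1 (h (k + 1)) k
    (lt_of_lt_of_le (by rw [length_prefixList]; omega) (length_le_cat (prefixList x (k + 1))))
  unfold Yr
  rw [h1]
  rfl

/-! ### positions which stay below `y` -/

/-- decoding of nonempty strings -/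
def dq (n : ℕ) : Bool × List Bool := (decode n : Option (Bool × List Bool)).getD default

theorem dq_encode (q : Bool × List Bool) : dq (encode q) = q := by
  unfold dq
  rw [encodek]
  rfl

variable (τ : List Mv → Mv)

/-- the position after the opponent's move `(q, i)` and the answer of `τ` -/
def nxt (L : List Mv) (i : Bool) (n : ℕ) : List Mv :=
  L ++ [⟨(dq n).1, (dq n).2, i⟩] ++ [τ (L ++ [⟨(dq n).1, (dq n).2, i⟩])]

open Classical in
/-- the least good string -/
noncomputable def qf (y : ℕ → Bool) (L : List Mv) (i : Bool) : ℕ :=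
  sInf {n | Ext (cat (nxt τ L i n)) y}

noncomputable def step (y : ℕ → Bool) (L : List Mv) (i : Bool) : List Mv :=
  nxt τ L i (qf τ y L i)

noncomputable def pos (L0 : List Mv) (y : ℕ → Bool) (β : List Bool) : List Mv :=
  β.foldl (step τ y) L0

/-- the generic condition -/
def GenC (L0 : List Mv) : Set (ℕ → Bool) :=
  {y | Ext (cat L0) y ∧ ∀ (L : List Mv) (i : Bool), Ext (cat L) y → ∃ n, Ext (cat (nxt τ L i n)) y}

variable {τ}

theorem pos_succ (L0 : List Mv) (y β : ℕ → Bool) (n : ℕ) :
    pos τ L0 y (pre β (n + 1)) = step τ y (pos τ L0 y (pre β n)) (β n) := by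
  unfold pos
  rw [pre_succ, List.foldl_append]
  rfl

theorem pos_zero (L0 : List Mv) (y β : ℕ → Bool) : pos τ L0 y (pre β 0) = L0 := rfl

theorem length_nxt (L : List Mv) (i : Bool) (n : ℕ) : (nxt τ L i n).length = L.length + 2 := by
  simp [nxt]

theorem length_pos (L0 : List Mv) (y β : ℕ → Bool) (n : ℕ) :
    (pos τ L0 y (pre β n)).length = L0.length + 2 * n := by
  induction n with
  | zero => rw [pos_zero]; rfl
  | succ n ih =>
    rw [pos_succ]
    unfold step
    rw [length_nxt, ih]
    omega

theorem step_prefix (y : ℕ → Bool) (L : List Mv) (i : Bool) : L <+: step τ y L i := by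
  unfold step nxt
  rw [List.append_assoc]
  exact List.prefix_append _ _

theorem pos_prefix (L0 : List Mv) (y β : ℕ → Bool) {m n : ℕ} (h : m ≤ n) :
    pos τ L0 y (pre β m) <+: pos τ L0 y (pre β n) := by
  induction n, h using Nat.le_induction with
  | base => exact List.prefix_rfl
  | succ n _ ih => exact ih.trans (by rw [pos_succ]; exact step_prefix _ _ _)

theorem Ext_step {L0 : List Mv} {y : ℕ → Bool} (hy : y ∈ GenC τ L0) {L : List Mv} (i : Bool)
    (h : Ext (cat L) y) : Ext (cat (step τ y L i)) y := by
  have h1 : ({n | Ext (cat (nxt τ L i n)) y} : Set ℕ).Nonempty := hy.2 L i h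
  exact Nat.sInf_mem h1

theorem Ext_pos {L0 : List Mv} {y : ℕ → Bool} (hy : y ∈ GenC τ L0) (β : ℕ → Bool) (n : ℕ) :
    Ext (cat (pos τ L0 y (pre β n))) y := by
  induction n with
  | zero => exact hy.1
  | succ n ih => rw [pos_succ]; exact Ext_step hy _ ih

/-- the play against the bits `β` -/
noncomputable def plx (τ : List Mv → Mv) (L0 : List Mv) (y β : ℕ → Bool) (k : ℕ) : Mv :=
  ((pos τ L0 y (pre β (k + 1)))[k]?).getD default

theorem prefixList_plx (L0 : List Mv) (y β : ℕ → Bool) (n : ℕ) :
    prefixList (plx τ L0 y β) (L0.length + 2 * n) = pos τ L0 y (pre β n) := by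
  apply List.ext_getElem?
  intro k
  by_cases hk : k < L0.length + 2 * n
  · rw [prefixList_getElem? _ hk]
    have h1 : k < (pos τ L0 y (pre β (k + 1))).length := by rw [length_pos]; omega
    have h2 : k < (pos τ L0 y (pre β n)).length := by rw [length_pos]; exact hk
    unfold plx
    rcases le_total n (k + 1) with h | h
    · have h3 := (pos_prefix (τ := τ) L0 y β h)
      obtain ⟨t, ht⟩ := h3
      rw [← ht, List.getElem?_append_left h2, List.getElem?_eq_getElem h2]
      rfl
    · have h3 := (pos_prefix (τ := τ) L0 y β h)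
      obtain ⟨t, ht⟩ := h3
      rw [← ht, List.getElem?_append_left h1, List.getElem?_eq_getElem h1]
      rfl
  · rw [List.getElem?_eq_none (by rw [length_prefixList]; omega),
      List.getElem?_eq_none (by rw [length_pos]; omega)]

theorem Yr_plx {L0 : List Mv} {y : ℕ → Bool} (hy : y ∈ GenC τ L0) (β : ℕ → Bool) :
    Yr (plx τ L0 y β) = y := by
  apply Yr_unique
  intro n
  refine Ext_mono (cat_prefix ?_) (Ext_pos hy β n)
  rw [← prefixList_plx]
  exact prefixList_prefix _ (by omega)

/-- the value of `plx` at the opponent's moves -/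
theorem plx_opp (L0 : List Mv) (y β : ℕ → Bool) (n : ℕ) :
    (plx τ L0 y β (L0.length + 2 * n)).bit = β n := by
  have h1 : (prefixList (plx τ L0 y β) (L0.length + 2 * (n + 1)))[L0.length + 2 * n]? =
      some (plx τ L0 y β (L0.length + 2 * n)) := prefixList_getElem? _ (by omega)
  rw [prefixList_plx, pos_succ] at h1
  unfold step nxt at h1
  rw [List.append_assoc, List.getElem?_append_right (by rw [length_pos]), length_pos,
    Nat.sub_self] at h1
  simp only [List.cons_append, List.nil_append, List.getElem?_cons_zero, Option.some.injEq] at h1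
  rw [← h1]

/-- the value of `plx` at the moves of `τ` -/
theorem plx_own (L0 : List Mv) (y β : ℕ → Bool) (n : ℕ) :
    plx τ L0 y β (L0.length + 2 * n + 1) =
      τ (prefixList (plx τ L0 y β) (L0.length + 2 * n + 1)) := by
  have h0 : prefixList (plx τ L0 y β) (L0.length + 2 * (n + 1)) =
      prefixList (plx τ L0 y β) (L0.length + 2 * n + 1) ++
        [plx τ L0 y β (L0.length + 2 * n + 1)] := prefixList_succ _ _
  rw [prefixList_plx, pos_succ] at h0
  unfold step nxt at h0
  have h1 := List.append_inj' h0 (by simp)
  have h2 : [τ (pos τ L0 y (pre β n) ++ [_])] = [plx τ L0 y β (L0.length + 2 * n + 1)] := h1.2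
  rw [← h1.1]
  simp only [List.cons.injEq, and_true] at h2
  exact h2.symm

theorem plx_init (L0 : List Mv) (y β : ℕ → Bool) {k : ℕ} (hk : k < L0.length) :
    plx τ L0 y β k = L0[k] := by
  have h1 : (prefixList (plx τ L0 y β) (L0.length + 2 * 0))[k]? =
      some (plx τ L0 y β k) := prefixList_getElem? _ (by omega)
  rw [prefixList_plx, pos_zero, List.getElem?_eq_getElem hk] at h1
  exact (Option.some.inj h1).symm

/-- the last bit of a position -/
def lastBit (L : List Mv) : Bool := (L.getLast?.map Mv.bit).getD false

/-- the table of answers -/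
noncomputable def tab (τ : List Mv → Mv) (L0 : List Mv) (y : ℕ → Bool) (n : ℕ) : Bool :=
  lastBit (pos τ L0 y (dl n))

theorem tab_eq (L0 : List Mv) (y β : ℕ → Bool) (n : ℕ) (hn : 0 < L0.length + 2 * n) :
    (plx τ L0 y β (L0.length + 2 * n - 1)).bit = tab τ L0 y (encode (pre β n)) := by
  unfold tab
  rw [dl_encode, ← prefixList_plx]
  obtain ⟨m, hm⟩ : ∃ m, L0.length + 2 * n = m + 1 := ⟨L0.length + 2 * n - 1, by omega⟩
  rw [hm, prefixList_succ]
  unfold lastBit
  simp

theorem TR_tab (L0 : List Mv) {y β c : ℕ → Bool} (k : ℕ) (hy : TR (tab τ L0 y) c)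
    (hβ : TR β c) : TR (fun n => tab τ L0 y (encode (pre β (n + k)))) c := by
  rw [tr_iff_ci]
  have h1 : CI {orc c} (fun n : ℕ => encode (pre β (n + k))) :=
    CI.comp (ci_tr (ci_pre β) hβ) (CI.add (CI.of_computable Computable.id) (CI.const k))
  exact ci_orc_comp hy h1

end Pool.Agent.Mart
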